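import Mathlib

/-!
Ingham-type inequalities from scratch.
-/

open MeasureTheory Set intervalIntegral

namespace Pool.Agent.Lib.MP_0955de_an

/-- Finite sums of inverse squares of distances in a separated set. -/
lemma exists_sep_sum : ∃ S : ℝ, 0 ≤ S ∧ ∀ γ : ℝ, 0 < γ → ∀ F : Finset ℝ,
    (∀ x ∈ F, ∀ y ∈ F, x ≠ y → γ ≤ |x - y|) → ∀ x ∈ F,
    ∑ y ∈ F.erase x, 1 / (x - y) ^ 2 ≤ S / γ ^ 2 := by
  have hsum : Summable fun n : ℤ => 1 / (n : ℝ) ^ 2 := by
    simpa using Real.summable_one_div_int_pow.2 (by norm_num : 1 < 2)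
  have hnn : ∀ n : ℤ, 0 ≤ 1 / (n : ℝ) ^ 2 := fun n => by positivity
  have h00 : 0 ≤ ∑' n : ℤ, 1 / (n : ℝ) ^ 2 := tsum_nonneg hnn
  refine ⟨4 * ∑' n : ℤ, 1 / (n : ℝ) ^ 2, by positivity, ?_⟩
  intro γ hγ F hF x hx
  set n : ℝ → ℤ := fun y => ⌊(y - x) / γ⌋ with hn
  have hinj : Set.InjOn n (F.erase x) := by
    intro y hy y' hy' h
    by_contra hne
    have hy1 : y ∈ F := Finset.mem_of_mem_erase hy
    have hy1' : y' ∈ F := Finset.mem_of_mem_erase hy'
    have h1 := hF y hy1 y' hy1' hne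
    have h2 := Int.abs_sub_lt_one_of_floor_eq_floor h
    rw [← sub_div, abs_div, abs_of_pos hγ, div_lt_one hγ] at h2
    have h3 : y - x - (y' - x) = y - y' := by ring
    rw [h3] at h2
    linarith
  have hterm : ∀ y ∈ F.erase x, 1 / (x - y) ^ 2 ≤ 4 / γ ^ 2 * (1 / ((n y : ℤ) : ℝ) ^ 2) := by
    intro y hy
    have hy1 : y ∈ F := Finset.mem_of_mem_erase hy
    have hyx : y ≠ x := Finset.ne_of_mem_erase hy
    have h1 := hF y hy1 x hx hyx
    set z := (y - x) / γ with hz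
    have hz1 : 1 ≤ |z| := by
      rw [hz, abs_div, abs_of_pos hγ, le_div_iff₀ hγ]
      linarith
    have h4 : ((n y : ℤ) : ℝ) = ((⌊z⌋ : ℤ) : ℝ) := rfl
    have h5 : ((⌊z⌋ : ℤ) : ℝ) ≤ z := Int.floor_le z
    have h6 : z < ((⌊z⌋ : ℤ) : ℝ) + 1 := Int.lt_floor_add_one z
    have h7 : ((⌊z⌋ : ℤ) : ℝ) ≠ 0 := by
      intro h0
      have h0' : (⌊z⌋ : ℤ) = 0 := by exact_mod_cast h0
      rw [h0] at h5 h6
      rw [abs_of_nonneg h5] at hz1
      linarith
    have h8 : |((⌊z⌋ : ℤ) : ℝ)| ≤ 2 * |z| := by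
      have : |((⌊z⌋ : ℤ) : ℝ)| ≤ |z| + 1 := by
        rw [abs_le]
        constructor
        · have := neg_abs_le z
          linarith
        · have := le_abs_self z
          linarith
      linarith
    have h9 : (((⌊z⌋ : ℤ) : ℝ)) ^ 2 ≤ 4 * z ^ 2 := by
      rw [← sq_abs, ← sq_abs z]
      nlinarith [abs_nonneg ((⌊z⌋ : ℤ) : ℝ), abs_nonneg z]
    have h10 : (x - y) ^ 2 = γ ^ 2 * z ^ 2 := by
      rw [hz]
      field_simp
      ring
    rw [h4, h10]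
    have h11 : 0 < z ^ 2 := by
      rw [← sq_abs]
      positivity
    have h12 : 0 < (((⌊z⌋ : ℤ) : ℝ)) ^ 2 := by positivity
    rw [div_mul_div_comm, div_le_div_iff₀ (by positivity) (by positivity)]
    nlinarith [sq_nonneg γ, mul_le_mul_of_nonneg_left h9 (sq_nonneg γ)]
  calc ∑ y ∈ F.erase x, 1 / (x - y) ^ 2
      ≤ ∑ y ∈ F.erase x, 4 / γ ^ 2 * (1 / ((n y : ℤ) : ℝ) ^ 2) := Finset.sum_le_sum hterm
    _ = 4 / γ ^ 2 * ∑ m ∈ (F.erase x).image n, 1 / ((m : ℤ) : ℝ) ^ 2 := by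
        rw [← Finset.mul_sum, Finset.sum_image hinj]
    _ ≤ 4 / γ ^ 2 * ∑' m : ℤ, 1 / (m : ℝ) ^ 2 := by
        gcongr
        exact hsum.sum_le_tsum _ (fun m _ => hnn m)
    _ = (4 * ∑' m : ℤ, 1 / (m : ℝ) ^ 2) / γ ^ 2 := by ring

/-- The weighted integral of an exponential. -/
noncomputable def Wt (α β ξ : ℝ) : ℂ :=
  ∫ t in α..β, (((t - α) * (β - t) : ℝ) : ℂ) * Complex.exp (Complex.I * (ξ : ℂ) * (t : ℂ))

lemma Wt_zero (α β : ℝ) : Wt α β 0 = (((β - α) ^ 3 / 6 : ℝ) : ℂ) := by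
  unfold Wt
  have h1 : (fun t : ℝ => (((t - α) * (β - t) : ℝ) : ℂ) *
      Complex.exp (Complex.I * ((0 : ℝ) : ℂ) * (t : ℂ))) =
      fun t : ℝ => (((t - α) * (β - t) : ℝ) : ℂ) := by
    funext t
    simp
  rw [h1, intervalIntegral.integral_ofReal]
  congr 1
  have h2 : ∀ t ∈ uIcc α β, HasDerivAt
      (fun t : ℝ => (β + α) * t ^ 2 / 2 - t ^ 3 / 3 - α * β * t) ((t - α) * (β - t)) t := by
    intro t _
    have e1 : HasDerivAt (fun t : ℝ => (β + α) * t ^ 2 / 2) ((β + α) * (2 * t) / 2) t := by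
      have := ((hasDerivAt_pow 2 t).const_mul (β + α)).div_const 2
      simpa using this
    have e2 : HasDerivAt (fun t : ℝ => t ^ 3 / 3) (3 * t ^ 2 / 3) t := by
      have := (hasDerivAt_pow 3 t).div_const 3
      simpa using this
    have e3 : HasDerivAt (fun t : ℝ => α * β * t) (α * β) t := by
      have := (hasDerivAt_id t).const_mul (α * β)
      simpa using this
    have e4 := (e1.sub e2).sub e3
    have e5 : (β + α) * (2 * t) / 2 - 3 * t ^ 2 / 3 - α * β = (t - α) * (β - t) := by ring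
    rw [e5] at e4
    exact e4
  rw [intervalIntegral.integral_eq_sub_of_hasDerivAt h2
    ((by fun_prop : Continuous fun t : ℝ => (t - α) * (β - t)).intervalIntegrable _ _)]
  ring

lemma norm_exp_I_mul (x y : ℝ) : ‖Complex.exp (Complex.I * (x : ℂ) * (y : ℂ))‖ = 1 := by
  rw [mul_assoc, ← Complex.ofReal_mul, mul_comm]
  exact Complex.norm_exp_ofReal_mul_I _

lemma Wt_norm_le {α β : ℝ} (hαβ : α ≤ β) {ξ : ℝ} (hξ : ξ ≠ 0) :
    ‖Wt α β ξ‖ ≤ 4 * (β - α) / ξ ^ 2 := by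
  have hz : (Complex.I * (ξ : ℂ)) ≠ 0 :=
    mul_ne_zero Complex.I_ne_zero (by exact_mod_cast hξ)
  set z : ℂ := Complex.I * (ξ : ℂ) with hzdef
  set G : ℝ → ℂ := fun t => Complex.exp (z * (t : ℂ)) *
    ((((t - α) * (β - t) : ℝ) : ℂ) / z - (((α + β - 2 * t : ℝ) : ℂ)) / z ^ 2 + (-2) / z ^ 3)
    with hG
  have hder : ∀ t ∈ uIcc α β, HasDerivAt G
      ((((t - α) * (β - t) : ℝ) : ℂ) * Complex.exp (z * (t : ℂ))) t := by
    intro t _
    have e0 : HasDerivAt (fun t : ℝ => z * (t : ℂ)) z t := by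
      have := (Complex.ofRealCLM.hasDerivAt (x := t)).const_mul z
      simpa using this
    have e1 := e0.cexp
    have e2 : HasDerivAt (fun t : ℝ => (((t - α) * (β - t) : ℝ) : ℂ))
        (((α + β - 2 * t : ℝ) : ℂ)) t := by
      have h1 : HasDerivAt (fun t : ℝ => (t - α) * (β - t)) (α + β - 2 * t) t := by
        have := ((hasDerivAt_id t).sub_const α).mul ((hasDerivAt_id t).const_sub β)
        have e : 1 * (β - id t) + (id t - α) * (-1) = α + β - 2 * t := by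
          simp only [id]; ring
        rw [e] at this
        exact this
      exact h1.ofReal_comp
    have e3 : HasDerivAt (fun t : ℝ => ((α + β - 2 * t : ℝ) : ℂ)) (((-2 : ℝ) : ℂ)) t := by
      have h1 : HasDerivAt (fun t : ℝ => α + β - 2 * t) (-2) t := by
        have := ((hasDerivAt_id t).const_mul 2).const_sub (α + β)
        simpa using this
      exact h1.ofReal_comp
    have e4 := e1.fun_mul (((e2.div_const z).fun_sub (e3.div_const (z ^ 2))).add_const ((-2) / z ^ 3))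
    refine e4.congr_deriv ?_
    push_cast
    field_simp
    ring
  have hcont : Continuous fun t : ℝ => (((t - α) * (β - t) : ℝ) : ℂ) *
      Complex.exp (z * (t : ℂ)) := by fun_prop
  have hW : Wt α β ξ = G β - G α := by
    unfold Wt
    exact intervalIntegral.integral_eq_sub_of_hasDerivAt hder (hcont.intervalIntegrable _ _)
  have hW2 : Wt α β ξ = ((β - α : ℝ) : ℂ) / z ^ 2 *
      (Complex.exp (z * (β : ℂ)) + Complex.exp (z * (α : ℂ))) -
      2 / z ^ 3 * (Complex.exp (z * (β : ℂ)) - Complex.exp (z * (α : ℂ))) := by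
    rw [hW, hG]
    simp only
    push_cast
    field_simp
    ring
  have hnz : ‖z‖ = |ξ| := by
    rw [hzdef, norm_mul, Complex.norm_I, one_mul, Complex.norm_real, Real.norm_eq_abs]
  have h1 : ‖Complex.exp (z * (β : ℂ))‖ = 1 := norm_exp_I_mul ξ β
  have h2 : ‖Complex.exp (z * (α : ℂ))‖ = 1 := norm_exp_I_mul ξ α
  have h3 : ‖Complex.exp (z * (β : ℂ)) - Complex.exp (z * (α : ℂ))‖ ≤ |ξ| * (β - α) := by
    have e1 : Complex.exp (z * (β : ℂ)) - Complex.exp (z * (α : ℂ)) =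
        Complex.exp (z * (α : ℂ)) * (Complex.exp (Complex.I * ((ξ * (β - α) : ℝ) : ℂ)) - 1) := by
      rw [mul_sub, ← Complex.exp_add, mul_one, hzdef]
      congr 2
      push_cast
      ring
    rw [e1, norm_mul, h2, one_mul]
    refine (Real.norm_exp_I_mul_ofReal_sub_one_le (x := ξ * (β - α))).trans ?_
    rw [norm_mul, Real.norm_eq_abs, Real.norm_eq_abs, abs_of_nonneg (by linarith : 0 ≤ β - α)]
  have hξ2 : 0 < |ξ| := abs_pos.2 hξ
  rw [hW2]
  refine (norm_sub_le _ _).trans ?_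
  rw [norm_mul, norm_mul, norm_div, norm_div, norm_pow, norm_pow, hnz, Complex.norm_real,
    Real.norm_eq_abs, abs_of_nonneg (by linarith : 0 ≤ β - α)]
  have h4 : ‖Complex.exp (z * (β : ℂ)) + Complex.exp (z * (α : ℂ))‖ ≤ 2 := by
    refine (norm_add_le _ _).trans ?_
    rw [h1, h2]; norm_num
  have h5 : ‖(2 : ℂ)‖ = 2 := by simp
  rw [h5]
  calc (β - α) / |ξ| ^ 2 * ‖Complex.exp (z * (β : ℂ)) + Complex.exp (z * (α : ℂ))‖ +
        2 / |ξ| ^ 3 * ‖Complex.exp (z * (β : ℂ)) - Complex.exp (z * (α : ℂ))‖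
      ≤ (β - α) / |ξ| ^ 2 * 2 + 2 / |ξ| ^ 3 * (|ξ| * (β - α)) := by
        have : 0 ≤ β - α := by linarith
        gcongr
    _ = 4 * (β - α) / |ξ| ^ 2 := by
        field_simp
        ring
    _ = _ := by rw [sq_abs]

/-- The exponential sum. -/
noncomputable def es (F : Finset ℝ) (c : ℝ → ℂ) (t : ℝ) : ℂ :=
  ∑ l ∈ F, c l * Complex.exp (Complex.I * (l : ℂ) * (t : ℂ))

lemma continuous_es (F : Finset ℝ) (c : ℝ → ℂ) : Continuous (es F c) := by
  unfold es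
  fun_prop

/-- Key quadratic form identity with the weight. -/
lemma weighted_identity (F : Finset ℝ) (c : ℝ → ℂ) (α β : ℝ) :
    ((∫ t in α..β, (t - α) * (β - t) * ‖es F c t‖ ^ 2 : ℝ) : ℂ) =
      ∑ l ∈ F, ∑ m ∈ F, c l * (starRingEnd ℂ) (c m) * Wt α β (l - m) := by
  rw [← intervalIntegral.integral_ofReal]
  have h1 : ∀ t : ℝ, (((t - α) * (β - t) * ‖es F c t‖ ^ 2 : ℝ) : ℂ) =
      ∑ l ∈ F, ∑ m ∈ F, c l * (starRingEnd ℂ) (c m) * ((((t - α) * (β - t) : ℝ) : ℂ) *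
        Complex.exp (Complex.I * ((l - m : ℝ) : ℂ) * (t : ℂ))) := by
    intro t
    have h2 : ((‖es F c t‖ ^ 2 : ℝ) : ℂ) = es F c t * (starRingEnd ℂ) (es F c t) := by
      rw [Complex.mul_conj']
      push_cast
      rfl
    rw [Complex.ofReal_mul, h2]
    unfold es
    rw [map_sum, Finset.sum_mul_sum, Finset.mul_sum]
    apply Finset.sum_congr rfl
    intro l _
    rw [Finset.mul_sum]
    apply Finset.sum_congr rfl
    intro m _
    rw [map_mul, ← Complex.exp_conj]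
    have h3 : (starRingEnd ℂ) (Complex.I * (m : ℂ) * (t : ℂ)) = -(Complex.I * (m : ℂ) * (t : ℂ)) := by
      rw [map_mul, map_mul, Complex.conj_I, Complex.conj_ofReal, Complex.conj_ofReal]
      ring
    rw [h3]
    have h4 : Complex.exp (Complex.I * ((l - m : ℝ) : ℂ) * (t : ℂ)) =
        Complex.exp (Complex.I * (l : ℂ) * (t : ℂ)) * Complex.exp (-(Complex.I * (m : ℂ) * (t : ℂ))) := by
      rw [← Complex.exp_add]
      congr 1
      push_cast
      ring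
    rw [h4]
    ring
  simp_rw [h1]
  rw [intervalIntegral.integral_finset_sum]
  · apply Finset.sum_congr rfl
    intro l _
    rw [intervalIntegral.integral_finset_sum]
    · apply Finset.sum_congr rfl
      intro m _
      rw [intervalIntegral.integral_const_mul]
      rfl
    · intro m _
      apply Continuous.intervalIntegrable
      fun_prop
  · intro l _
    apply Continuous.intervalIntegrable
    fun_prop

lemma quad_bound {S : ℝ} (hS : ∀ γ : ℝ, 0 < γ → ∀ F : Finset ℝ,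
    (∀ x ∈ F, ∀ y ∈ F, x ≠ y → γ ≤ |x - y|) → ∀ x ∈ F,
    ∑ y ∈ F.erase x, 1 / (x - y) ^ 2 ≤ S / γ ^ 2) {γ : ℝ} (hγ : 0 < γ) (F : Finset ℝ)
    (hF : ∀ x ∈ F, ∀ y ∈ F, x ≠ y → γ ≤ |x - y|) (c : ℝ → ℂ) {α β : ℝ} (hαβ : α ≤ β) :
    |(∫ t in α..β, (t - α) * (β - t) * ‖es F c t‖ ^ 2) -
      (β - α) ^ 3 / 6 * ∑ l ∈ F, ‖c l‖ ^ 2| ≤
      4 * (β - α) * (S / γ ^ 2) * ∑ l ∈ F, ‖c l‖ ^ 2 := by
  have hid := weighted_identity F c α β
  have hsplit : ∑ l ∈ F, ∑ m ∈ F, c l * (starRingEnd ℂ) (c m) * Wt α β (l - m) =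
      (((β - α) ^ 3 / 6 * ∑ l ∈ F, ‖c l‖ ^ 2 : ℝ) : ℂ) +
      ∑ l ∈ F, ∑ m ∈ F.erase l, c l * (starRingEnd ℂ) (c m) * Wt α β (l - m) := by
    have e1 : (((β - α) ^ 3 / 6 * ∑ l ∈ F, ‖c l‖ ^ 2 : ℝ) : ℂ) =
        ∑ l ∈ F, c l * (starRingEnd ℂ) (c l) * Wt α β (l - l) := by
      rw [Finset.mul_sum, Complex.ofReal_sum]
      apply Finset.sum_congr rfl
      intro l _
      rw [sub_self, Wt_zero, Complex.mul_conj']
      push_cast
      ring
    rw [e1, ← Finset.sum_add_distrib]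
    apply Finset.sum_congr rfl
    intro l hl
    rw [Finset.add_sum_erase F (fun m => c l * (starRingEnd ℂ) (c m) * Wt α β (l - m)) hl]
  rw [hsplit] at hid
  have h1 : (((∫ t in α..β, (t - α) * (β - t) * ‖es F c t‖ ^ 2) -
      (β - α) ^ 3 / 6 * ∑ l ∈ F, ‖c l‖ ^ 2 : ℝ) : ℂ) =
      ∑ l ∈ F, ∑ m ∈ F.erase l, c l * (starRingEnd ℂ) (c m) * Wt α β (l - m) := by
    rw [Complex.ofReal_sub, hid]
    ring
  have h2 : |(∫ t in α..β, (t - α) * (β - t) * ‖es F c t‖ ^ 2) -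
      (β - α) ^ 3 / 6 * ∑ l ∈ F, ‖c l‖ ^ 2| =
      ‖∑ l ∈ F, ∑ m ∈ F.erase l, c l * (starRingEnd ℂ) (c m) * Wt α β (l - m)‖ := by
    rw [← h1, Complex.norm_real, Real.norm_eq_abs]
  rw [h2]
  have hL : 0 ≤ β - α := by linarith
  -- termwise bound
  have h3 : ‖∑ l ∈ F, ∑ m ∈ F.erase l, c l * (starRingEnd ℂ) (c m) * Wt α β (l - m)‖ ≤
      ∑ l ∈ F, ∑ m ∈ F.erase l, (‖c l‖ ^ 2 / 2 + ‖c m‖ ^ 2 / 2) *
        (4 * (β - α) * (1 / (l - m) ^ 2)) := by
    refine (norm_sum_le _ _).trans (Finset.sum_le_sum fun l hl => ?_)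
    refine (norm_sum_le _ _).trans (Finset.sum_le_sum fun m hm => ?_)
    have hlm : l - m ≠ 0 := sub_ne_zero.2 (Finset.ne_of_mem_erase hm).symm
    rw [norm_mul, norm_mul, RCLike.norm_conj]
    have h4 := Wt_norm_le hαβ hlm
    have h5 : ‖c l‖ * ‖c m‖ ≤ ‖c l‖ ^ 2 / 2 + ‖c m‖ ^ 2 / 2 := by
      nlinarith [sq_nonneg (‖c l‖ - ‖c m‖)]
    have h6 : 4 * (β - α) / (l - m) ^ 2 = 4 * (β - α) * (1 / (l - m) ^ 2) := by ring
    rw [h6] at h4
    gcongr
  refine h3.trans ?_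
  -- symmetrization
  have h7 : ∑ l ∈ F, ∑ m ∈ F.erase l, (‖c l‖ ^ 2 / 2 + ‖c m‖ ^ 2 / 2) *
      (4 * (β - α) * (1 / (l - m) ^ 2)) =
      ∑ l ∈ F, ∑ m ∈ F.erase l, ‖c l‖ ^ 2 * (4 * (β - α) * (1 / (l - m) ^ 2)) := by
    have h8 : ∑ l ∈ F, ∑ m ∈ F.erase l, ‖c m‖ ^ 2 / 2 * (4 * (β - α) * (1 / (l - m) ^ 2)) =
        ∑ l ∈ F, ∑ m ∈ F.erase l, ‖c l‖ ^ 2 / 2 * (4 * (β - α) * (1 / (l - m) ^ 2)) := by
      rw [Finset.sum_comm' (t' := F) (s' := fun m => F.erase m)]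
      · apply Finset.sum_congr rfl
        intro m _
        apply Finset.sum_congr rfl
        intro l _
        rw [show (l - m) ^ 2 = (m - l) ^ 2 by ring]
      · intro x y
        simp only [Finset.mem_erase]
        tauto
    simp_rw [add_mul, Finset.sum_add_distrib]
    rw [h8, ← Finset.sum_add_distrib]
    apply Finset.sum_congr rfl
    intro l _
    rw [← Finset.sum_add_distrib]
    apply Finset.sum_congr rfl
    intro m _
    ring
  rw [h7]
  calc ∑ l ∈ F, ∑ m ∈ F.erase l, ‖c l‖ ^ 2 * (4 * (β - α) * (1 / (l - m) ^ 2))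
      = ∑ l ∈ F, ‖c l‖ ^ 2 * (4 * (β - α) * ∑ m ∈ F.erase l, (1 / (l - m) ^ 2)) := by
        apply Finset.sum_congr rfl
        intro l _
        rw [Finset.mul_sum, Finset.mul_sum]
    _ ≤ ∑ l ∈ F, ‖c l‖ ^ 2 * (4 * (β - α) * (S / γ ^ 2)) := by
        apply Finset.sum_le_sum
        intro l hl
        have := hS γ hγ F hF l hl
        gcongr
    _ = _ := by
        rw [← Finset.sum_mul]
        ring

end Pool.Agent.Lib.MP_0955de_an
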