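import Mathlib
import Pool.Agent.Lib.MP_0955de_an.Ingham

/-!
Observability inequalities for families of exponents with gaps tending to infinity.
-/

open MeasureTheory Set intervalIntegral

namespace Pool.Agent.Lib.MP_0955de_an

/-- Observability of the exponent set `Λ` on `[0, T]`. -/
def Obs (Λ : Set ℝ) (T : ℝ) : Prop :=
  ∃ C : ℝ, 0 ≤ C ∧ ∀ (F : Finset ℝ) (c : ℝ → ℂ), (F : Set ℝ) ⊆ Λ →
    ∑ l ∈ F, ‖c l‖ ^ 2 ≤ C * ∫ t in (0 : ℝ)..T, ‖es F c t‖ ^ 2

/-- The set `Λ` has gap at least `γ`. -/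
def Gap (Λ : Set ℝ) (γ : ℝ) : Prop := ∀ x ∈ Λ, ∀ y ∈ Λ, x ≠ y → γ ≤ |x - y|

/-- Ingham's inequality for a large gap. -/
lemma obs_of_large_gap {T : ℝ} (hT : 0 < T) : ∃ γ : ℝ, 0 < γ ∧ ∀ Λ : Set ℝ, Gap Λ γ → Obs Λ T := by
  obtain ⟨S, hS0, hS⟩ := exists_sep_sum
  -- choose γ with 4 T S / γ^2 ≤ T^3/12
  refine ⟨Real.sqrt (48 * (S + 1) / T ^ 2), by positivity, ?_⟩
  intro Λ hΛ
  set γ := Real.sqrt (48 * (S + 1) / T ^ 2) with hγ
  have hγ0 : 0 < γ := by positivity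
  have hγ2 : γ ^ 2 = 48 * (S + 1) / T ^ 2 := Real.sq_sqrt (by positivity)
  refine ⟨3 / T, by positivity, ?_⟩
  intro F c hF
  have hq := quad_bound hS hγ0 F (fun x hx y hy hxy => hΛ x (hF hx) y (hF hy) hxy) c hT.le
  rw [sub_zero] at hq
  have h1 := (abs_le.1 hq).1
  have h2 : 4 * T * (S / γ ^ 2) ≤ T ^ 3 / 12 := by
    rw [hγ2, div_div_eq_mul_div]
    rw [mul_div_assoc', div_le_div_iff₀ (by positivity) (by norm_num)]
    nlinarith [pow_pos hT 3]
  have h3 : 0 ≤ ∑ l ∈ F, ‖c l‖ ^ 2 := Finset.sum_nonneg fun _ _ => by positivity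
  have h4 : T ^ 3 / 12 * ∑ l ∈ F, ‖c l‖ ^ 2 ≤
      ∫ t in (0 : ℝ)..T, (t - 0) * (T - t) * ‖es F c t‖ ^ 2 := by
    have := mul_le_mul_of_nonneg_right h2 h3
    nlinarith
  have h5 : ∫ t in (0 : ℝ)..T, (t - 0) * (T - t) * ‖es F c t‖ ^ 2 ≤
      ∫ t in (0 : ℝ)..T, T ^ 2 / 4 * ‖es F c t‖ ^ 2 := by
    have hc := continuous_es F c
    apply intervalIntegral.integral_mono_on hT.le
    · apply Continuous.intervalIntegrable; fun_prop
    · apply Continuous.intervalIntegrable; fun_prop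
    · intro t _
      have : (t - 0) * (T - t) ≤ T ^ 2 / 4 := by nlinarith [sq_nonneg (t - T / 2)]
      gcongr
  rw [intervalIntegral.integral_const_mul] at h5
  have h6 : T ^ 3 / 12 * ∑ l ∈ F, ‖c l‖ ^ 2 ≤ T ^ 2 / 4 * ∫ t in (0 : ℝ)..T, ‖es F c t‖ ^ 2 :=
    h4.trans h5
  have h7 : ∑ l ∈ F, ‖c l‖ ^ 2 = 12 / T ^ 3 * (T ^ 3 / 12 * ∑ l ∈ F, ‖c l‖ ^ 2) := by
    field_simp
  rw [h7]
  calc 12 / T ^ 3 * (T ^ 3 / 12 * ∑ l ∈ F, ‖c l‖ ^ 2)
      ≤ 12 / T ^ 3 * (T ^ 2 / 4 * ∫ t in (0 : ℝ)..T, ‖es F c t‖ ^ 2) := by gcongr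
    _ = _ := by field_simp; ring

/-- The direct inequality. -/
lemma direct_of_gap {γ : ℝ} (hγ : 0 < γ) {T : ℝ} (hT : 0 < T) {Λ : Set ℝ} (hΛ : Gap Λ γ) :
    ∃ D : ℝ, 0 ≤ D ∧ ∀ (F : Finset ℝ) (c : ℝ → ℂ), (F : Set ℝ) ⊆ Λ →
      ∫ t in (0 : ℝ)..T, ‖es F c t‖ ^ 2 ≤ D * ∑ l ∈ F, ‖c l‖ ^ 2 := by
  obtain ⟨S, hS0, hS⟩ := exists_sep_sum
  set K : ℝ := (3 * T) ^ 3 / 6 + 4 * (3 * T) * (S / γ ^ 2) with hK
  have hK0 : 0 ≤ K := by positivity
  refine ⟨K / (2 * T ^ 2), by positivity, ?_⟩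
  intro F c hF
  have hq := quad_bound hS hγ F (fun x hx y hy hxy => hΛ x (hF hx) y (hF hy) hxy) c
    (by linarith : -T ≤ 2 * T)
  have e1 : 2 * T - -T = 3 * T := by ring
  rw [e1] at hq
  have h1 := (abs_le.1 hq).2
  have hc := continuous_es F c
  set g : ℝ → ℝ := fun t => (t - -T) * (2 * T - t) * ‖es F c t‖ ^ 2 with hg
  have hgc : Continuous g := by fun_prop
  have h2 : ∫ t in (-T)..(2 * T), g t ≤ K * ∑ l ∈ F, ‖c l‖ ^ 2 := by
    rw [hK, add_mul]
    linarith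
  have h3 : ∫ t in (0 : ℝ)..T, g t ≤ ∫ t in (-T)..(2 * T), g t := by
    have e2 : ∫ t in (-T)..(2 * T), g t = (∫ t in (-T)..0, g t) + (∫ t in (0 : ℝ)..T, g t) +
        ∫ t in T..(2 * T), g t := by
      rw [intervalIntegral.integral_add_adjacent_intervals (hgc.intervalIntegrable _ _)
        (hgc.intervalIntegrable _ _),
        intervalIntegral.integral_add_adjacent_intervals (hgc.intervalIntegrable _ _)
        (hgc.intervalIntegrable _ _)]
    have e3 : 0 ≤ ∫ t in (-T)..0, g t := by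
      apply intervalIntegral.integral_nonneg (by linarith)
      intro t ht
      have a1 : 0 ≤ t - -T := by linarith [ht.1]
      have a2 : 0 ≤ 2 * T - t := by linarith [ht.2]
      positivity
    have e4 : 0 ≤ ∫ t in T..(2 * T), g t := by
      apply intervalIntegral.integral_nonneg (by linarith)
      intro t ht
      have a1 : 0 ≤ t - -T := by linarith [ht.1]
      have a2 : 0 ≤ 2 * T - t := by linarith [ht.2]
      positivity
    linarith
  have h4 : ∫ t in (0 : ℝ)..T, (2 * T ^ 2) * ‖es F c t‖ ^ 2 ≤ ∫ t in (0 : ℝ)..T, g t := by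
    apply intervalIntegral.integral_mono_on hT.le
    · apply Continuous.intervalIntegrable; fun_prop
    · exact hgc.intervalIntegrable _ _
    · intro t ht
      have : 2 * T ^ 2 ≤ (t - -T) * (2 * T - t) := by nlinarith [ht.1, ht.2]
      simp only [hg]
      gcongr
  rw [intervalIntegral.integral_const_mul] at h4
  have h5 : 2 * T ^ 2 * ∫ t in (0 : ℝ)..T, ‖es F c t‖ ^ 2 ≤ K * ∑ l ∈ F, ‖c l‖ ^ 2 :=
    h4.trans (h3.trans h2)
  rw [div_mul_eq_mul_div, le_div_iff₀ (by positivity)]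
  linarith

/-- Cauchy–Schwarz on an interval. -/
lemma cs_interval {a b : ℝ} (hab : a < b) {h : ℝ → ℂ} (hh : Continuous h) :
    ‖∫ t in a..b, h t‖ ^ 2 ≤ (b - a) * ∫ t in a..b, ‖h t‖ ^ 2 := by
  have h1 : ‖∫ t in a..b, h t‖ ≤ ∫ t in a..b, ‖h t‖ :=
    intervalIntegral.norm_integral_le_integral_norm hab.le
  set I := ∫ t in a..b, ‖h t‖ with hI
  have hI0 : 0 ≤ I := intervalIntegral.integral_nonneg hab.le fun t _ => norm_nonneg _
  set c := I / (b - a) with hc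
  have hba : 0 < b - a := by linarith
  have h2 : 0 ≤ ∫ t in a..b, (‖h t‖ - c) ^ 2 :=
    intervalIntegral.integral_nonneg hab.le fun t _ => sq_nonneg _
  have h3 : ∫ t in a..b, (‖h t‖ - c) ^ 2 = (∫ t in a..b, ‖h t‖ ^ 2) - 2 * c * I +
      c ^ 2 * (b - a) := by
    have e1 : ∀ t, (‖h t‖ - c) ^ 2 = ‖h t‖ ^ 2 - 2 * c * ‖h t‖ + c ^ 2 := fun t => by ring
    simp_rw [e1]
    rw [intervalIntegral.integral_add, intervalIntegral.integral_sub,
      intervalIntegral.integral_const_mul, intervalIntegral.integral_const, smul_eq_mul]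
    · ring
    all_goals (apply Continuous.intervalIntegrable; fun_prop)
  rw [h3] at h2
  have h4 : c * (b - a) = I := by rw [hc]; field_simp
  have h5 : I ^ 2 ≤ (b - a) * ∫ t in a..b, ‖h t‖ ^ 2 := by
    have h6 : I ^ 2 = (b - a) * (2 * c * I - c ^ 2 * (b - a)) := by
      have : (b - a) * (2 * c * I - c ^ 2 * (b - a)) = 2 * (c * (b - a)) * I -
          (c * (b - a)) ^ 2 := by ring
      rw [this, h4]
      ring
    rw [h6]
    gcongr
    linarith
  have h7 := norm_nonneg (∫ t in a..b, h t)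
  nlinarith

/-- The averaging multiplier. -/
noncomputable def sg (δ ξ : ℝ) : ℂ := (1 / δ : ℝ) * ∫ s in (0 : ℝ)..δ,
  Complex.exp (Complex.I * (ξ : ℂ) * (s : ℂ))

lemma sg_re {δ ξ : ℝ} (hδ : 0 < δ) (hξ : ξ ≠ 0) :
    (sg δ ξ).re = Real.sin (ξ * δ) / (ξ * δ) := by
  unfold sg
  rw [Complex.re_ofReal_mul]
  have h1 : (∫ s in (0 : ℝ)..δ, Complex.exp (Complex.I * (ξ : ℂ) * (s : ℂ))).re =
      ∫ s in (0 : ℝ)..δ, Real.cos (ξ * s) := by
    have hint : IntervalIntegrable (fun s : ℝ => Complex.exp (Complex.I * (ξ : ℂ) * (s : ℂ)))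
        volume 0 δ := by
      apply Continuous.intervalIntegrable; fun_prop
    have h2 := Complex.reCLM.intervalIntegral_comp_comm hint
    rw [Complex.reCLM_apply] at h2
    rw [← h2]
    apply intervalIntegral.integral_congr
    intro s _
    show (Complex.exp (Complex.I * (ξ : ℂ) * (s : ℂ))).re = Real.cos (ξ * s)
    rw [mul_assoc, ← Complex.ofReal_mul, mul_comm, Complex.exp_ofReal_mul_I_re]
  rw [h1]
  have h3 : ∫ s in (0 : ℝ)..δ, Real.cos (ξ * s) = Real.sin (ξ * δ) / ξ := by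
    have h4 : ∀ s ∈ uIcc 0 δ, HasDerivAt (fun s => Real.sin (ξ * s) / ξ) (Real.cos (ξ * s)) s := by
      intro s _
      have e1 : HasDerivAt (fun s => ξ * s) ξ s := by
        have := (hasDerivAt_id s).const_mul ξ
        simpa using this
      have e2 := (e1.sin).div_const ξ
      refine e2.congr_deriv ?_
      field_simp
    rw [intervalIntegral.integral_eq_sub_of_hasDerivAt h4
      (by apply Continuous.intervalIntegrable; fun_prop)]
    simp
  rw [h3]
  field_simp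

/-- Uniform lower bound for `1 - sg`. -/
lemma exists_kappa {δ d : ℝ} (hδ : 0 < δ) (hd : 0 < d) :
    ∃ κ : ℝ, 0 < κ ∧ ∀ ξ : ℝ, d ≤ |ξ| → κ ≤ ‖1 - sg δ ξ‖ := by
  -- on the compact set [dδ, max 2 (dδ)]
  set θ0 := d * δ with hθ0
  have hθ0p : 0 < θ0 := by positivity
  have hpos : ∀ θ : ℝ, 0 < θ → Real.sin θ / θ < 1 := fun θ hθ => by
    rw [div_lt_one hθ]
    exact Real.sin_lt hθ
  obtain ⟨κ, hκ0, hκ⟩ : ∃ κ : ℝ, 0 < κ ∧ ∀ θ : ℝ, θ0 ≤ θ → κ ≤ 1 - Real.sin θ / θ := by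
    have hne : (Icc θ0 (max θ0 2)).Nonempty := nonempty_Icc.2 (le_max_left _ _)
    have hcont : ContinuousOn (fun θ => 1 - Real.sin θ / θ) (Icc θ0 (max θ0 2)) := by
      apply ContinuousOn.sub continuousOn_const
      apply ContinuousOn.div Real.continuous_sin.continuousOn continuousOn_id
      intro θ hθ
      have : 0 < θ := lt_of_lt_of_le hθ0p hθ.1
      exact this.ne'
    obtain ⟨θm, hθm, hmin⟩ := isCompact_Icc.exists_isMinOn hne hcont
    have hm : 0 < 1 - Real.sin θm / θm := by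
      have := hpos θm (lt_of_lt_of_le hθ0p hθm.1)
      linarith
    refine ⟨min (1 - Real.sin θm / θm) (1 / 2), lt_min hm (by norm_num), ?_⟩
    intro θ hθ
    by_cases h2 : θ ≤ max θ0 2
    · exact (min_le_left _ _).trans (hmin ⟨hθ, h2⟩)
    · push Not at h2
      have h3 : 2 < θ := lt_of_le_of_lt (le_max_right _ _) h2
      refine (min_le_right _ _).trans ?_
      have h4 : Real.sin θ / θ ≤ 1 / 2 := by
        rw [div_le_iff₀ (by linarith)]
        have := Real.sin_le_one θ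
        linarith
      linarith
  refine ⟨κ, hκ0, fun ξ hξ => ?_⟩
  have hξ0 : ξ ≠ 0 := by
    intro h0
    rw [h0, abs_zero] at hξ
    linarith
  have h1 : Real.sin (ξ * δ) / (ξ * δ) = Real.sin (|ξ| * δ) / (|ξ| * δ) := by
    rcases abs_cases ξ with ⟨h, _⟩ | ⟨h, _⟩
    · rw [h]
    · rw [h, neg_mul, Real.sin_neg, neg_div_neg_eq]
  have h2 := hκ (|ξ| * δ) (by rw [hθ0]; gcongr)
  rw [← h1, ← sg_re hδ hξ0] at h2
  refine h2.trans ?_
  have h3 : (1 - sg δ ξ).re = 1 - (sg δ ξ).re := by simp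
  rw [← h3]
  exact Complex.re_le_norm _

/-- The sum together with a resonant linear term at the exponent `μ`. -/
noncomputable def est (F : Finset ℝ) (c : ℝ → ℂ) (μ : ℝ) (a e : ℂ) (t : ℝ) : ℂ :=
  es F c t + (a + e * (t : ℂ)) * Complex.exp (Complex.I * (μ : ℂ) * (t : ℂ))

lemma continuous_est (F : Finset ℝ) (c : ℝ → ℂ) (μ : ℝ) (a e : ℂ) :
    Continuous (est F c μ a e) := by
  have := continuous_es F c
  unfold est
  fun_prop

/-- The averaging identity. -/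
lemma average_identity (F : Finset ℝ) (c : ℝ → ℂ) (μ : ℝ) (a e : ℂ) {δ : ℝ} (hδ : 0 < δ)
    (t : ℝ) :
    est F c μ a e t - ((1 / δ : ℝ) : ℂ) * (∫ s in (0 : ℝ)..δ,
      Complex.exp (-(Complex.I * (μ : ℂ) * (s : ℂ))) * est F c μ a e (t + s)) =
    est F (fun l => (1 - sg δ (l - μ)) * c l) μ (-(e * δ / 2)) 0 t := by
  have h1 : ∀ s : ℝ, Complex.exp (-(Complex.I * (μ : ℂ) * (s : ℂ))) * est F c μ a e (t + s) =
      (∑ l ∈ F, (c l * Complex.exp (Complex.I * (l : ℂ) * (t : ℂ))) *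
        Complex.exp (Complex.I * ((l - μ : ℝ) : ℂ) * (s : ℂ))) +
      ((a + e * (t : ℂ)) * Complex.exp (Complex.I * (μ : ℂ) * (t : ℂ)) +
        (e * Complex.exp (Complex.I * (μ : ℂ) * (t : ℂ))) * ((s : ℝ) : ℂ)) := by
    intro s
    unfold est es
    rw [mul_add, Finset.mul_sum]
    congr 1
    · apply Finset.sum_congr rfl
      intro l _
      have e1 : Complex.exp (-(Complex.I * (μ : ℂ) * (s : ℂ))) *
          Complex.exp (Complex.I * (l : ℂ) * ((t + s : ℝ) : ℂ)) =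
          Complex.exp (Complex.I * (l : ℂ) * (t : ℂ)) *
          Complex.exp (Complex.I * ((l - μ : ℝ) : ℂ) * (s : ℂ)) := by
        rw [← Complex.exp_add, ← Complex.exp_add]
        congr 1
        push_cast
        ring
      calc _ = c l * (Complex.exp (-(Complex.I * (μ : ℂ) * (s : ℂ))) *
          Complex.exp (Complex.I * (l : ℂ) * ((t + s : ℝ) : ℂ))) := by ring
        _ = _ := by rw [e1]; ring
    · have e1 : Complex.exp (-(Complex.I * (μ : ℂ) * (s : ℂ))) *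
          Complex.exp (Complex.I * (μ : ℂ) * ((t + s : ℝ) : ℂ)) =
          Complex.exp (Complex.I * (μ : ℂ) * (t : ℂ)) := by
        rw [← Complex.exp_add]
        congr 1
        push_cast
        ring
      calc _ = (a + e * ((t + s : ℝ) : ℂ)) * (Complex.exp (-(Complex.I * (μ : ℂ) * (s : ℂ))) *
          Complex.exp (Complex.I * (μ : ℂ) * ((t + s : ℝ) : ℂ))) := by ring
        _ = _ := by
          rw [e1]
          push_cast
          ring
  simp_rw [h1]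
  have hi1 : ∫ s in (0 : ℝ)..δ, (∑ l ∈ F, (c l * Complex.exp (Complex.I * (l : ℂ) * (t : ℂ))) *
        Complex.exp (Complex.I * ((l - μ : ℝ) : ℂ) * (s : ℂ))) =
      ∑ l ∈ F, (c l * Complex.exp (Complex.I * (l : ℂ) * (t : ℂ))) *
        ∫ s in (0 : ℝ)..δ, Complex.exp (Complex.I * ((l - μ : ℝ) : ℂ) * (s : ℂ)) := by
    rw [intervalIntegral.integral_finset_sum]
    · apply Finset.sum_congr rfl
      intro l _
      rw [intervalIntegral.integral_const_mul]
    · intro l _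
      apply Continuous.intervalIntegrable; fun_prop
  have hi2 : ∫ s in (0 : ℝ)..δ, ((a + e * (t : ℂ)) * Complex.exp (Complex.I * (μ : ℂ) * (t : ℂ)) +
        (e * Complex.exp (Complex.I * (μ : ℂ) * (t : ℂ))) * ((s : ℝ) : ℂ)) =
      (δ : ℂ) * ((a + e * (t : ℂ)) * Complex.exp (Complex.I * (μ : ℂ) * (t : ℂ))) +
      (e * Complex.exp (Complex.I * (μ : ℂ) * (t : ℂ))) * ((δ : ℂ) ^ 2 / 2) := by
    rw [intervalIntegral.integral_add, intervalIntegral.integral_const,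
      intervalIntegral.integral_const_mul, intervalIntegral.integral_ofReal, integral_id]
    · rw [sub_zero, Complex.real_smul]
      push_cast
      ring
    · apply Continuous.intervalIntegrable; fun_prop
    · apply Continuous.intervalIntegrable; fun_prop
  rw [intervalIntegral.integral_add, hi1, hi2]
  · have hδc : (δ : ℂ) ≠ 0 := by exact_mod_cast hδ.ne'
    unfold est es sg
    rw [mul_add, Finset.mul_sum]
    have e1 : ∑ l ∈ F, ((1 / δ : ℝ) : ℂ) * (c l * Complex.exp (Complex.I * (l : ℂ) * (t : ℂ)) *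
        ∫ s in (0 : ℝ)..δ, Complex.exp (Complex.I * ((l - μ : ℝ) : ℂ) * (s : ℂ))) =
        ∑ l ∈ F, c l * Complex.exp (Complex.I * (l : ℂ) * (t : ℂ)) -
        ∑ l ∈ F, (1 - ((1 / δ : ℝ) : ℂ) * ∫ s in (0 : ℝ)..δ,
          Complex.exp (Complex.I * ((l - μ : ℝ) : ℂ) * (s : ℂ))) * c l *
          Complex.exp (Complex.I * (l : ℂ) * (t : ℂ)) := by
      rw [← Finset.sum_sub_distrib]
      apply Finset.sum_congr rfl
      intro l _
      ring
    rw [e1]
    set X := ∑ l ∈ F, c l * Complex.exp (Complex.I * (l : ℂ) * (t : ℂ))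
    set Y := ∑ l ∈ F, (1 - ((1 / δ : ℝ) : ℂ) * ∫ s in (0 : ℝ)..δ,
          Complex.exp (Complex.I * ((l - μ : ℝ) : ℂ) * (s : ℂ))) * c l *
          Complex.exp (Complex.I * (l : ℂ) * (t : ℂ))
    set E := Complex.exp (Complex.I * (μ : ℂ) * (t : ℂ))
    rw [Complex.ofReal_div, Complex.ofReal_one]
    field_simp
    ring
  · apply Continuous.intervalIntegrable; fun_prop
  · apply Continuous.intervalIntegrable; fun_prop

/-- The averaging bound. -/
lemma average_bound {T δ : ℝ} (hT : 0 < T) (hδ : 0 < δ) (μ : ℝ) {f : ℝ → ℂ} (hf : Continuous f) :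
    ∫ t in (0 : ℝ)..T, ‖f t - ((1 / δ : ℝ) : ℂ) * (∫ s in (0 : ℝ)..δ,
      Complex.exp (-(Complex.I * (μ : ℂ) * (s : ℂ))) * f (t + s))‖ ^ 2 ≤
    (2 + 2 * T / δ) * ∫ t in (0 : ℝ)..(T + δ), ‖f t‖ ^ 2 := by
  set J := ∫ t in (0 : ℝ)..(T + δ), ‖f t‖ ^ 2 with hJ
  have hsub : ∀ a b : ℝ, 0 ≤ a → a ≤ b → b ≤ T + δ → ∫ t in a..b, ‖f t‖ ^ 2 ≤ J := by
    intro a b ha hab hb
    rw [hJ]
    have hc : Continuous fun t => ‖f t‖ ^ 2 := by fun_prop
    have e2 : ∫ t in (0 : ℝ)..(T + δ), ‖f t‖ ^ 2 = (∫ t in (0 : ℝ)..a, ‖f t‖ ^ 2) +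
        (∫ t in a..b, ‖f t‖ ^ 2) + ∫ t in b..(T + δ), ‖f t‖ ^ 2 := by
      rw [intervalIntegral.integral_add_adjacent_intervals (hc.intervalIntegrable _ _)
        (hc.intervalIntegrable _ _),
        intervalIntegral.integral_add_adjacent_intervals (hc.intervalIntegrable _ _)
        (hc.intervalIntegrable _ _)]
    have e3 : 0 ≤ ∫ t in (0 : ℝ)..a, ‖f t‖ ^ 2 :=
      intervalIntegral.integral_nonneg ha fun t _ => by positivity
    have e4 : 0 ≤ ∫ t in b..(T + δ), ‖f t‖ ^ 2 :=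
      intervalIntegral.integral_nonneg hb fun t _ => by positivity
    linarith
  have hJ0 : 0 ≤ J := intervalIntegral.integral_nonneg (by linarith) fun t _ => by positivity
  have hpt : ∀ t ∈ Icc (0 : ℝ) T, ‖f t - ((1 / δ : ℝ) : ℂ) * (∫ s in (0 : ℝ)..δ,
      Complex.exp (-(Complex.I * (μ : ℂ) * (s : ℂ))) * f (t + s))‖ ^ 2 ≤
      2 * ‖f t‖ ^ 2 + 2 * J / δ := by
    intro t ht
    have h1 := cs_interval hδ (h := fun s => Complex.exp (-(Complex.I * (μ : ℂ) * (s : ℂ))) *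
      f (t + s)) (by fun_prop)
    have h2 : ∫ s in (0 : ℝ)..δ, ‖Complex.exp (-(Complex.I * (μ : ℂ) * (s : ℂ))) *
        f (t + s)‖ ^ 2 = ∫ s in t..(t + δ), ‖f s‖ ^ 2 := by
      have e1 : ∀ s : ℝ, ‖Complex.exp (-(Complex.I * (μ : ℂ) * (s : ℂ))) * f (t + s)‖ ^ 2 =
          ‖f (t + s)‖ ^ 2 := by
        intro s
        have e2 : -(Complex.I * (μ : ℂ) * (s : ℂ)) = Complex.I * ((-μ : ℝ) : ℂ) * (s : ℂ) := by
          push_cast; ring
        rw [norm_mul, e2, norm_exp_I_mul, one_mul]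
      simp_rw [e1]
      rw [intervalIntegral.integral_comp_add_left (fun s => ‖f s‖ ^ 2), add_zero]
    rw [h2, sub_zero] at h1
    have h3 := hsub t (t + δ) ht.1 (by linarith) (by linarith [ht.2])
    set A := ∫ s in (0 : ℝ)..δ, Complex.exp (-(Complex.I * (μ : ℂ) * (s : ℂ))) * f (t + s) with hA
    have h4 : ‖((1 / δ : ℝ) : ℂ) * A‖ ^ 2 ≤ J / δ := by
      rw [norm_mul, mul_pow, Complex.norm_real, Real.norm_eq_abs, sq_abs]
      calc (1 / δ) ^ 2 * ‖A‖ ^ 2 ≤ (1 / δ) ^ 2 * (δ * J) := by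
            gcongr
            exact h1.trans (by gcongr)
        _ = J / δ := by field_simp
    have h5 := norm_sub_le (f t) (((1 / δ : ℝ) : ℂ) * A)
    have h6 := norm_nonneg (f t - ((1 / δ : ℝ) : ℂ) * A)
    have h7 : 2 * J / δ = 2 * (J / δ) := by ring
    rw [h7]
    nlinarith [sq_nonneg (‖f t‖ - ‖((1 / δ : ℝ) : ℂ) * A‖)]
  have hcA : Continuous fun t => ∫ s in (0 : ℝ)..δ,
      Complex.exp (-(Complex.I * (μ : ℂ) * (s : ℂ))) * f (t + s) := by
    apply intervalIntegral.continuous_parametric_intervalIntegral_of_continuous'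
    fun_prop
  calc ∫ t in (0 : ℝ)..T, ‖f t - ((1 / δ : ℝ) : ℂ) * (∫ s in (0 : ℝ)..δ,
      Complex.exp (-(Complex.I * (μ : ℂ) * (s : ℂ))) * f (t + s))‖ ^ 2
      ≤ ∫ t in (0 : ℝ)..T, (2 * ‖f t‖ ^ 2 + 2 * J / δ) := by
        apply intervalIntegral.integral_mono_on hT.le
        · apply Continuous.intervalIntegrable
          fun_prop
        · apply Continuous.intervalIntegrable; fun_prop
        · exact hpt
    _ = 2 * (∫ t in (0 : ℝ)..T, ‖f t‖ ^ 2) + T * (2 * J / δ) := by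
        rw [intervalIntegral.integral_add, intervalIntegral.integral_const_mul,
          intervalIntegral.integral_const, smul_eq_mul, sub_zero]
        · apply Continuous.intervalIntegrable; fun_prop
        · apply Continuous.intervalIntegrable; fun_prop
    _ ≤ 2 * J + T * (2 * J / δ) := by
        have := hsub 0 T le_rfl hT.le (by linarith)
        gcongr
    _ = _ := by ring

end Pool.Agent.Lib.MP_0955de_an
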