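import Mathlib
import Pool.Agent.Lib.MP_0955de_an.Obs

/-!
Adding finitely many exponents, and a resonant linear term, to observability inequalities.
-/

open MeasureTheory Set intervalIntegral

namespace Pool.Agent.Lib.MP_0955de_an

/-- Observability with one extra exponent `μ`. -/
def ObsB (Λ : Set ℝ) (μ T : ℝ) : Prop :=
  ∃ C : ℝ, 0 ≤ C ∧ ∀ (F : Finset ℝ) (c : ℝ → ℂ) (a : ℂ), (F : Set ℝ) ⊆ Λ →
    ∑ l ∈ F, ‖c l‖ ^ 2 + ‖a‖ ^ 2 ≤ C * ∫ t in (0 : ℝ)..T, ‖est F c μ a 0 t‖ ^ 2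

/-- Observability with a double exponent `μ`. -/
def ObsT (Λ : Set ℝ) (μ T : ℝ) : Prop :=
  ∃ C : ℝ, 0 ≤ C ∧ ∀ (F : Finset ℝ) (c : ℝ → ℂ) (a e : ℂ), (F : Set ℝ) ⊆ Λ →
    ∑ l ∈ F, ‖c l‖ ^ 2 + ‖a‖ ^ 2 + ‖e‖ ^ 2 ≤ C * ∫ t in (0 : ℝ)..T, ‖est F c μ a e t‖ ^ 2

lemma est_zero_zero (F : Finset ℝ) (c : ℝ → ℂ) (μ t : ℝ) : est F c μ 0 0 t = es F c t := by
  unfold est
  simp

lemma avg_ineq (F : Finset ℝ) (c : ℝ → ℂ) (μ : ℝ) (a e : ℂ) {T δ : ℝ} (hT : 0 < T) (hδ : 0 < δ) :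
    ∫ t in (0 : ℝ)..T, ‖est F (fun l => (1 - sg δ (l - μ)) * c l) μ (-(e * δ / 2)) 0 t‖ ^ 2 ≤
    (2 + 2 * T / δ) * ∫ t in (0 : ℝ)..(T + δ), ‖est F c μ a e t‖ ^ 2 := by
  have h1 := average_bound hT hδ μ (continuous_est F c μ a e)
  have h2 : (fun t => ‖est F c μ a e t - ((1 / δ : ℝ) : ℂ) * (∫ s in (0 : ℝ)..δ,
      Complex.exp (-(Complex.I * (μ : ℂ) * (s : ℂ))) * est F c μ a e (t + s))‖ ^ 2) =
      fun t => ‖est F (fun l => (1 - sg δ (l - μ)) * c l) μ (-(e * δ / 2)) 0 t‖ ^ 2 := by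
    funext t
    rw [average_identity F c μ a e hδ t]
  rw [h2] at h1
  exact h1

lemma kappa_sum {κ : ℝ} (hκ : 0 < κ) {δ d μ : ℝ}
    (hk : ∀ ξ : ℝ, d ≤ |ξ| → κ ≤ ‖1 - sg δ ξ‖) (F : Finset ℝ) (c : ℝ → ℂ)
    (hF : ∀ l ∈ F, d ≤ |l - μ|) :
    κ ^ 2 * ∑ l ∈ F, ‖c l‖ ^ 2 ≤ ∑ l ∈ F, ‖(1 - sg δ (l - μ)) * c l‖ ^ 2 := by
  rw [Finset.mul_sum]
  apply Finset.sum_le_sum
  intro l hl
  rw [norm_mul, mul_pow]
  have := hk _ (hF l hl)
  gcongr

lemma obsB_of_obs {Λ : Set ℝ} {μ d γ T δ : ℝ} (hd : 0 < d) (hμ : ∀ l ∈ Λ, d ≤ |l - μ|)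
    (hγ : 0 < γ) (hΛ : Gap Λ γ) (hT : 0 < T) (hδ : 0 < δ) (hO : Obs Λ T) : ObsB Λ μ (T + δ) := by
  obtain ⟨C, hC0, hC⟩ := hO
  obtain ⟨κ, hκ0, hκ⟩ := exists_kappa hδ hd
  obtain ⟨D, hD0, hD⟩ := direct_of_gap hγ (by linarith : 0 < T + δ) hΛ
  set C1 : ℝ := C * (2 + 2 * T / δ) / κ ^ 2 with hC1
  have hC10 : 0 ≤ C1 := by positivity
  refine ⟨C1 + (2 + 2 * D * C1) / (T + δ), by positivity, ?_⟩
  intro F c a hF
  set f := est F c μ a 0 with hf
  set J := ∫ t in (0 : ℝ)..(T + δ), ‖f t‖ ^ 2 with hJ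
  have hJ0 : 0 ≤ J := intervalIntegral.integral_nonneg (by linarith) fun t _ => by positivity
  have h1 := avg_ineq F c μ a 0 hT hδ
  have h2 : (fun t => ‖est F (fun l => (1 - sg δ (l - μ)) * c l) μ (-((0 : ℂ) * δ / 2)) 0 t‖ ^ 2) =
      fun t => ‖es F (fun l => (1 - sg δ (l - μ)) * c l) t‖ ^ 2 := by
    funext t
    rw [zero_mul, zero_div, neg_zero, est_zero_zero]
  rw [h2] at h1
  have h3 := hC F (fun l => (1 - sg δ (l - μ)) * c l) hF
  have h4 := kappa_sum hκ0 hκ F c (fun l hl => hμ l (hF hl))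
  have h5 : ∑ l ∈ F, ‖c l‖ ^ 2 ≤ C1 * J := by
    rw [hC1, div_mul_eq_mul_div, le_div_iff₀ (by positivity)]
    calc (∑ l ∈ F, ‖c l‖ ^ 2) * κ ^ 2 = κ ^ 2 * ∑ l ∈ F, ‖c l‖ ^ 2 := by ring
      _ ≤ _ := h4
      _ ≤ _ := h3
      _ ≤ C * ((2 + 2 * T / δ) * J) := by gcongr
      _ = _ := by ring
  have h6 : (T + δ) * ‖a‖ ^ 2 ≤ (2 + 2 * D * C1) * J := by
    have e1 : (T + δ) * ‖a‖ ^ 2 = ∫ t in (0 : ℝ)..(T + δ), ‖f t - es F c t‖ ^ 2 := by
      have e2 : ∀ t, ‖f t - es F c t‖ ^ 2 = ‖a‖ ^ 2 := by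
        intro t
        rw [hf]
        unfold est
        rw [add_sub_cancel_left, norm_mul, norm_exp_I_mul]
        simp
      simp_rw [e2]
      rw [intervalIntegral.integral_const, smul_eq_mul, sub_zero]
    rw [e1]
    have hcf := continuous_est F c μ a 0
    have hce := continuous_es F c
    calc ∫ t in (0 : ℝ)..(T + δ), ‖f t - es F c t‖ ^ 2
        ≤ ∫ t in (0 : ℝ)..(T + δ), (2 * ‖f t‖ ^ 2 + 2 * ‖es F c t‖ ^ 2) := by
          apply intervalIntegral.integral_mono_on (by linarith)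
          · apply Continuous.intervalIntegrable; fun_prop
          · apply Continuous.intervalIntegrable; fun_prop
          · intro t _
            have := norm_sub_le (f t) (es F c t)
            nlinarith [norm_nonneg (f t - es F c t), sq_nonneg (‖f t‖ - ‖es F c t‖)]
      _ = 2 * J + 2 * ∫ t in (0 : ℝ)..(T + δ), ‖es F c t‖ ^ 2 := by
          rw [intervalIntegral.integral_add, intervalIntegral.integral_const_mul,
            intervalIntegral.integral_const_mul]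
          · apply Continuous.intervalIntegrable; fun_prop
          · apply Continuous.intervalIntegrable; fun_prop
      _ ≤ 2 * J + 2 * (D * (C1 * J)) := by
          have := (hD F c hF).trans (mul_le_mul_of_nonneg_left h5 hD0)
          gcongr
      _ = _ := by ring
  have h7 : ‖a‖ ^ 2 ≤ (2 + 2 * D * C1) / (T + δ) * J := by
    rw [div_mul_eq_mul_div, le_div_iff₀ (by linarith)]
    linarith
  rw [add_mul]
  exact add_le_add h5 h7

lemma obsT_of_obsB {Λ : Set ℝ} {μ d γ T δ : ℝ} (hd : 0 < d) (hμ : ∀ l ∈ Λ, d ≤ |l - μ|)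
    (hγ : 0 < γ) (hΛ : Gap Λ γ) (hT : 0 < T) (hδ : 0 < δ) (hO : ObsB Λ μ T) :
    ObsT Λ μ (T + δ) := by
  obtain ⟨C, hC0, hC⟩ := hO
  obtain ⟨κ, hκ0, hκ⟩ := exists_kappa hδ hd
  obtain ⟨D, hD0, hD⟩ := direct_of_gap hγ (by linarith : 0 < T + δ) hΛ
  set C0 : ℝ := C * (2 + 2 * T / δ) with hC0def
  have hC00 : 0 ≤ C0 := by positivity
  set C1 : ℝ := C0 / κ ^ 2 with hC1
  have hC10 : 0 ≤ C1 := by positivity
  set C2 : ℝ := C0 / (δ ^ 2 / 4) with hC2
  have hC20 : 0 ≤ C2 := by positivity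
  refine ⟨C1 + C2 + (3 + 3 * D * C1 + 3 * (T + δ) ^ 3 * C2) / (T + δ), by positivity, ?_⟩
  intro F c a e hF
  set f := est F c μ a e with hf
  set J := ∫ t in (0 : ℝ)..(T + δ), ‖f t‖ ^ 2 with hJ
  have hJ0 : 0 ≤ J := intervalIntegral.integral_nonneg (by linarith) fun t _ => by positivity
  have h1 := avg_ineq F c μ a e hT hδ
  have h3 := hC F (fun l => (1 - sg δ (l - μ)) * c l) (-(e * δ / 2)) hF
  have h4 := kappa_sum hκ0 hκ F c (fun l hl => hμ l (hF hl))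
  have h3' : ∑ l ∈ F, ‖(1 - sg δ (l - μ)) * c l‖ ^ 2 + ‖-(e * δ / 2)‖ ^ 2 ≤ C0 * J := by
    refine h3.trans ?_
    rw [hC0def, mul_assoc]
    gcongr
  have he : ‖-(e * (δ : ℂ) / 2)‖ ^ 2 = δ ^ 2 / 4 * ‖e‖ ^ 2 := by
    rw [norm_neg, norm_div, norm_mul, Complex.norm_real, Real.norm_eq_abs, abs_of_pos hδ]
    simp only [Complex.norm_ofNat]
    ring
  rw [he] at h3'
  have hs0 : 0 ≤ ∑ l ∈ F, ‖(1 - sg δ (l - μ)) * c l‖ ^ 2 :=
    Finset.sum_nonneg fun _ _ => by positivity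
  have h5 : ∑ l ∈ F, ‖c l‖ ^ 2 ≤ C1 * J := by
    rw [hC1, div_mul_eq_mul_div, le_div_iff₀ (by positivity)]
    have : 0 ≤ δ ^ 2 / 4 * ‖e‖ ^ 2 := by positivity
    linarith
  have h5' : ‖e‖ ^ 2 ≤ C2 * J := by
    rw [hC2, div_mul_eq_mul_div, le_div_iff₀ (by positivity)]
    linarith
  have h6 : (T + δ) * ‖a‖ ^ 2 ≤ (3 + 3 * D * C1 + 3 * (T + δ) ^ 3 * C2) * J := by
    have e1 : (T + δ) * ‖a‖ ^ 2 = ∫ t in (0 : ℝ)..(T + δ), ‖f t - es F c t -
        e * (t : ℂ) * Complex.exp (Complex.I * (μ : ℂ) * (t : ℂ))‖ ^ 2 := by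
      have e2 : ∀ t : ℝ, ‖f t - es F c t -
          e * (t : ℂ) * Complex.exp (Complex.I * (μ : ℂ) * (t : ℂ))‖ ^ 2 = ‖a‖ ^ 2 := by
        intro t
        have e3 : f t - es F c t - e * (t : ℂ) * Complex.exp (Complex.I * (μ : ℂ) * (t : ℂ)) =
            a * Complex.exp (Complex.I * (μ : ℂ) * (t : ℂ)) := by
          rw [hf]
          unfold est
          ring
        rw [e3, norm_mul, norm_exp_I_mul, mul_one]
      simp_rw [e2]
      rw [intervalIntegral.integral_const, smul_eq_mul, sub_zero]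
    rw [e1]
    have hcf := continuous_est F c μ a e
    have hce := continuous_es F c
    calc ∫ t in (0 : ℝ)..(T + δ), ‖f t - es F c t -
        e * (t : ℂ) * Complex.exp (Complex.I * (μ : ℂ) * (t : ℂ))‖ ^ 2
        ≤ ∫ t in (0 : ℝ)..(T + δ), (3 * ‖f t‖ ^ 2 + 3 * ‖es F c t‖ ^ 2 +
            3 * (‖e‖ ^ 2 * (T + δ) ^ 2)) := by
          apply intervalIntegral.integral_mono_on (by linarith)
          · apply Continuous.intervalIntegrable; fun_prop
          · apply Continuous.intervalIntegrable; fun_prop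
          · intro t ht
            have a1 := norm_sub_le (f t - es F c t)
              (e * (t : ℂ) * Complex.exp (Complex.I * (μ : ℂ) * (t : ℂ)))
            have a2 := norm_sub_le (f t) (es F c t)
            have a3 : ‖e * (t : ℂ) * Complex.exp (Complex.I * (μ : ℂ) * (t : ℂ))‖ ≤
                ‖e‖ * (T + δ) := by
              rw [norm_mul, norm_mul, norm_exp_I_mul, mul_one, Complex.norm_real,
                Real.norm_eq_abs, abs_of_nonneg ht.1]
              gcongr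
              exact ht.2
            set p := ‖f t‖
            set q := ‖es F c t‖
            set r := ‖e‖ * (T + δ)
            have a4 : ‖f t - es F c t -
                e * (t : ℂ) * Complex.exp (Complex.I * (μ : ℂ) * (t : ℂ))‖ ≤ p + q + r := by
              linarith
            have a5 : ‖f t - es F c t -
                e * (t : ℂ) * Complex.exp (Complex.I * (μ : ℂ) * (t : ℂ))‖ ^ 2 ≤
                (p + q + r) ^ 2 := by gcongr
            have a6 : ‖e‖ ^ 2 * (T + δ) ^ 2 = r ^ 2 := by ring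
            rw [a6]
            nlinarith [sq_nonneg (p - q), sq_nonneg (p - r), sq_nonneg (q - r)]
      _ = 3 * J + 3 * (∫ t in (0 : ℝ)..(T + δ), ‖es F c t‖ ^ 2) +
          (T + δ) * (3 * (‖e‖ ^ 2 * (T + δ) ^ 2)) := by
          rw [intervalIntegral.integral_add, intervalIntegral.integral_add,
            intervalIntegral.integral_const_mul,
            intervalIntegral.integral_const_mul, intervalIntegral.integral_const, smul_eq_mul,
            sub_zero]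
          all_goals (apply Continuous.intervalIntegrable; fun_prop)
      _ ≤ 3 * J + 3 * (D * (C1 * J)) + (T + δ) * (3 * (C2 * J * (T + δ) ^ 2)) := by
          have := (hD F c hF).trans (mul_le_mul_of_nonneg_left h5 hD0)
          gcongr
      _ = _ := by ring
  have h7 : ‖a‖ ^ 2 ≤ (3 + 3 * D * C1 + 3 * (T + δ) ^ 3 * C2) / (T + δ) * J := by
    rw [div_mul_eq_mul_div, le_div_iff₀ (by linarith)]
    linarith
  rw [add_mul, add_mul]
  linarith

lemma Obs.mono {Λ : Set ℝ} {T T' : ℝ} (h : Obs Λ T) (hT : 0 ≤ T) (hTT : T ≤ T') : Obs Λ T' := by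
  obtain ⟨C, hC0, hC⟩ := h
  refine ⟨C, hC0, fun F c hF => (hC F c hF).trans ?_⟩
  have hc : Continuous fun t => ‖es F c t‖ ^ 2 := by
    have := continuous_es F c
    fun_prop
  have e2 : ∫ t in (0 : ℝ)..T', ‖es F c t‖ ^ 2 = (∫ t in (0 : ℝ)..T, ‖es F c t‖ ^ 2) +
      ∫ t in T..T', ‖es F c t‖ ^ 2 := by
    rw [intervalIntegral.integral_add_adjacent_intervals (hc.intervalIntegrable _ _)
      (hc.intervalIntegrable _ _)]
  have e3 : 0 ≤ ∫ t in T..T', ‖es F c t‖ ^ 2 :=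
    intervalIntegral.integral_nonneg hTT fun t _ => by positivity
  rw [e2]
  nlinarith

lemma obs_insert {Λ : Set ℝ} {μ T : ℝ} (h : ObsB Λ μ T) : Obs (insert μ Λ) T := by
  obtain ⟨C, hC0, hC⟩ := h
  refine ⟨C, hC0, fun F c hF => ?_⟩
  by_cases hμ : μ ∈ F
  · have h1 := hC (F.erase μ) c (c μ) (by
      intro x hx
      rw [Finset.mem_coe, Finset.mem_erase] at hx
      rcases hF hx.2 with h | h
      · exact absurd h hx.1
      · exact h)
    rw [Finset.sum_erase_add F (fun l => ‖c l‖ ^ 2) hμ] at h1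
    have h2 : (fun t => ‖est (F.erase μ) c μ (c μ) 0 t‖ ^ 2) = fun t => ‖es F c t‖ ^ 2 := by
      funext t
      unfold est es
      rw [zero_mul, add_zero, Finset.sum_erase_add F
        (fun l => c l * Complex.exp (Complex.I * (l : ℂ) * (t : ℂ))) hμ]
    rw [h2] at h1
    exact h1
  · have h1 := hC F c 0 (by
      intro x hx
      rcases hF hx with h | h
      · rw [h] at hx
        exact absurd hx hμ
      · exact h)
    have h2 : (fun t => ‖est F c μ 0 0 t‖ ^ 2) = fun t => ‖es F c t‖ ^ 2 := by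
      funext t
      rw [est_zero_zero]
    rw [h2, norm_zero] at h1
    simpa using h1

lemma obs_of_diff (G : Finset ℝ) : ∀ (Λ : Set ℝ) (γ T T' : ℝ), 0 < γ → Gap Λ γ → 0 < T → T < T' →
    Obs (Λ \ G) T → Obs Λ T' := by
  induction G using Finset.induction_on with
  | empty =>
    intro Λ γ T T' _ _ hT hTT h
    rw [Finset.coe_empty, diff_empty] at h
    exact h.mono hT.le hTT.le
  | insert μ G _ ih =>
    intro Λ γ T T' hγ hΛ hT hTT h
    have h1 : Obs (Λ \ {μ}) ((T + T') / 2) := by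
      apply ih (Λ \ {μ}) γ T ((T + T') / 2) hγ
        (fun x hx y hy hxy => hΛ x hx.1 y hy.1 hxy) hT (by linarith)
      rw [diff_diff]
      rw [Finset.coe_insert] at h
      exact h
    by_cases hμ : μ ∈ Λ
    · have h2 : ObsB (Λ \ {μ}) μ ((T + T') / 2 + (T' - T) / 2) := by
        apply obsB_of_obs hγ (fun l hl => hΛ l hl.1 μ hμ hl.2) hγ
          (fun x hx y hy hxy => hΛ x hx.1 y hy.1 hxy) (by linarith) (by linarith) h1
      have h3 := obs_insert h2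
      rw [insert_diff_singleton, insert_eq_of_mem hμ] at h3
      have e : (T + T') / 2 + (T' - T) / 2 = T' := by ring
      rw [e] at h3
      exact h3
    · rw [diff_singleton_eq_self hμ] at h1
      exact h1.mono (by linarith) (by linarith)

/-- **Observability** for exponents with gaps tending to infinity, plus a double exponent. -/
theorem obsT_of_gaps {Λ : Set ℝ} {μ d : ℝ} (hd : 0 < d) (hΛ : Gap Λ d)
    (hμ : ∀ l ∈ Λ, d ≤ |l - μ|)
    (hlarge : ∀ γ : ℝ, ∃ G : Finset ℝ, Gap (Λ \ G) γ) {T : ℝ} (hT : 0 < T) : ObsT Λ μ T := by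
  obtain ⟨γ, hγ, h⟩ := obs_of_large_gap (by linarith : 0 < T / 4)
  obtain ⟨G, hG⟩ := hlarge γ
  have h1 : Obs Λ (T / 2) := obs_of_diff G Λ d (T / 4) (T / 2) hd hΛ (by linarith) (by linarith)
    (h _ hG)
  have h2 : ObsB Λ μ (T / 2 + T / 4) :=
    obsB_of_obs hd hμ hd hΛ (by linarith) (by linarith) h1
  have h3 : ObsT Λ μ (T / 2 + T / 4 + T / 4) :=
    obsT_of_obsB hd hμ hd hΛ (by linarith) (by linarith) h2
  have e : T / 2 + T / 4 + T / 4 = T := by ring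
  rw [e] at h3
  exact h3

end Pool.Agent.Lib.MP_0955de_an
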