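import Mathlib
import Pool.Agent.Lib.MP_0955de_an.ObsT

/-!
The exponents seen by an oblique observation of the beam.
-/

open MeasureTheory Set intervalIntegral

namespace Pool.Agent.Lib.MP_0955de_an

/-- The exponent of the mode `(k, s)` seen along a line of slope `a`. -/
noncomputable def ev (a : ℝ) (j : ℤ × Bool) : ℝ :=
  (if j.2 then (j.1 : ℝ) ^ 2 else -(j.1 : ℝ) ^ 2) - a * j.1

lemma ev_true (a : ℝ) (k : ℤ) : ev a (k, true) = (k : ℝ) ^ 2 - a * k := by simp [ev]

lemma ev_false (a : ℝ) (k : ℤ) : ev a (k, false) = -(k : ℝ) ^ 2 - a * k := by simp [ev]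

/-- `a` is not an integer. -/
def NonInt (a : ℝ) : Prop := ∀ n : ℤ, a ≠ n

lemma NonInt.ne_zero {a : ℝ} (ha : NonInt a) : a ≠ 0 := by
  have := ha 0
  simpa using this

lemma ev_ne_zero {a : ℝ} (ha : NonInt a) {j : ℤ × Bool} (hj : j.1 ≠ 0) : ev a j ≠ 0 := by
  obtain ⟨k, s⟩ := j
  have hk : (k : ℝ) ≠ 0 := by exact_mod_cast hj
  cases s
  · rw [ev_false]
    intro h
    have h1 : (k : ℝ) * (k + a) = 0 := by linarith
    rcases mul_eq_zero.1 h1 with h2 | h2
    · exact hk h2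
    · apply ha (-k)
      push_cast
      linarith
  · rw [ev_true]
    intro h
    have h1 : (k : ℝ) * (k - a) = 0 := by linarith
    rcases mul_eq_zero.1 h1 with h2 | h2
    · exact hk h2
    · apply ha k
      linarith

lemma ev_inj_same {a : ℝ} (ha : NonInt a) {k l : ℤ} {s : Bool} (h : ev a (k, s) = ev a (l, s)) :
    k = l := by
  cases s
  · rw [ev_false, ev_false] at h
    have h1 : ((k : ℝ) - l) * (k + l + a) = 0 := by linarith
    rcases mul_eq_zero.1 h1 with h2 | h2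
    · have : (k : ℝ) = l := by linarith
      exact_mod_cast this
    · exfalso
      apply ha (-(k + l))
      push_cast
      linarith
  · rw [ev_true, ev_true] at h
    have h1 : ((k : ℝ) - l) * (k + l - a) = 0 := by linarith
    rcases mul_eq_zero.1 h1 with h2 | h2
    · have : (k : ℝ) = l := by linarith
      exact_mod_cast this
    · exfalso
      apply ha (k + l)
      push_cast
      linarith

lemma gap_aux {a : ℝ} (ha : NonInt a) {γ : ℝ} (hγ : 0 ≤ γ) :
    ∃ N : ℝ, ∀ j j' : ℤ × Bool, j ≠ j' → N < |(j.1 : ℝ)| → γ ≤ |ev a j - ev a j'| := by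
  set δ0 := |a - round a| with hδ0
  have hδpos : 0 < δ0 := by
    rw [hδ0, abs_pos, sub_ne_zero]
    exact ha (round a)
  have hδle : ∀ n : ℤ, δ0 ≤ |a - n| := fun n => round_le a n
  set N : ℝ := γ / δ0 + |a| + γ + a ^ 2 / 4 + 1 with hN
  have hNa : |a| + γ ≤ N := by
    have : 0 ≤ γ / δ0 := by positivity
    have : 0 ≤ a ^ 2 / 4 := by positivity
    linarith
  have hNδ : γ ≤ N * δ0 := by
    have h1 : γ / δ0 ≤ N := by
      have : 0 ≤ |a| := abs_nonneg a
      have : 0 ≤ a ^ 2 / 4 := by positivity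
      linarith
    rwa [div_le_iff₀ hδpos] at h1
  refine ⟨N, ?_⟩
  -- product estimate
  have hprod : ∀ (k l : ℤ) (b : ℝ), |b| = |a| → (∀ n : ℤ, δ0 ≤ |b - n|) → k ≠ l → N < |(k : ℝ)| →
      γ ≤ |((k : ℝ) - l) * (k + l - b)| := by
    intro k l b hb hbδ hkl hk
    rw [abs_mul]
    have h1 : (1 : ℝ) ≤ |(k : ℝ) - l| := by
      have : (1 : ℤ) ≤ |k - l| := Int.one_le_abs (sub_ne_zero.2 hkl)
      exact_mod_cast this
    have h2 : δ0 ≤ |(k : ℝ) + l - b| := by
      have := hbδ (k + l)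
      rw [abs_sub_comm] at this
      push_cast at this
      exact this
    by_cases h3 : |(k : ℝ)| ≤ |(k : ℝ) - l|
    · calc γ ≤ N * δ0 := hNδ
        _ ≤ |(k : ℝ) - l| * |(k : ℝ) + l - b| := by
          have : N ≤ |(k : ℝ) - l| := by linarith
          have : 0 ≤ |(k : ℝ) - l| := abs_nonneg _
          gcongr
    · push Not at h3
      have h4 : |(k : ℝ)| ≤ |(k : ℝ) + l| := by
        have h5 : 2 * |(k : ℝ)| ≤ |(k : ℝ) - l| + |(k : ℝ) + l| := by
          have h6 := abs_add_le ((k : ℝ) - l) ((k : ℝ) + l)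
          have h7 : (k : ℝ) - l + (k + l) = 2 * k := by ring
          rw [h7, abs_mul, abs_two] at h6
          exact h6
        linarith
      have h5 : |(k : ℝ)| - |a| ≤ |(k : ℝ) + l - b| := by
        have h6 := abs_sub_abs_le_abs_sub ((k : ℝ) + l) b
        rw [hb] at h6
        linarith
      calc γ ≤ 1 * (|(k : ℝ)| - |a|) := by linarith
        _ ≤ |(k : ℝ) - l| * |(k : ℝ) + l - b| := by
          have : 0 ≤ |(k : ℝ)| - |a| := by linarith
          gcongr
  -- opposite signs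
  have hopp : ∀ (k l : ℤ) (b : ℝ), |b| = |a| → N < |(k : ℝ)| →
      γ ≤ |(k : ℝ) ^ 2 - b * k + (l : ℝ) ^ 2 + b * l| := by
    intro k l b hb hk
    have h1 : b * k ≤ |a| * |(k : ℝ)| := by
      rw [← hb, ← abs_mul]; exact le_abs_self _
    have h2 : -(b * l) ≤ |a| * |(l : ℝ)| := by
      rw [← hb, ← abs_mul]; exact neg_le_abs _
    have h3 : (k : ℝ) ^ 2 = |(k : ℝ)| ^ 2 := (sq_abs _).symm
    have h4 : (l : ℝ) ^ 2 = |(l : ℝ)| ^ 2 := (sq_abs _).symm
    have h5 : |a| * |(l : ℝ)| ≤ |(l : ℝ)| ^ 2 + a ^ 2 / 4 := by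
      rw [← sq_abs a]
      nlinarith [sq_nonneg (|(l : ℝ)| - |a| / 2)]
    have h6 : γ + a ^ 2 / 4 + 1 ≤ |(k : ℝ)| - |a| := by
      have : 0 ≤ γ / δ0 := by positivity
      linarith
    have h7 : (1 : ℝ) ≤ |(k : ℝ)| := by
      have : 0 ≤ |a| := abs_nonneg a
      have : 0 ≤ a ^ 2 / 4 := by positivity
      linarith
    have h8 : γ + a ^ 2 / 4 + 1 ≤ |(k : ℝ)| * (|(k : ℝ)| - |a|) := by
      have : 0 ≤ |(k : ℝ)| - |a| := by
        have : 0 ≤ a ^ 2 / 4 := by positivity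
        linarith
      nlinarith
    refine le_trans ?_ (le_abs_self _)
    rw [h3, h4]
    nlinarith
  rintro ⟨k, s⟩ ⟨l, s'⟩ hne hk
  have hk' : N < |(k : ℝ)| := hk
  have hnegδ : ∀ n : ℤ, δ0 ≤ |(-a) - n| := by
    intro n
    have := hδle (-n)
    rw [show -a - (n : ℝ) = -(a - ((-n : ℤ) : ℝ)) by push_cast; ring, abs_neg]
    exact this
  cases s <;> cases s'
  · have hkl : k ≠ l := fun h => hne (by rw [h])
    have h1 := hprod k l (-a) (abs_neg a) hnegδ hkl hk'
    rw [ev_false, ev_false]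
    have e : -(k : ℝ) ^ 2 - a * k - (-(l : ℝ) ^ 2 - a * l) = -(((k : ℝ) - l) * (k + l - -a)) := by
      ring
    rw [e, abs_neg]
    exact h1
  · have h1 := hopp k l (-a) (abs_neg a) hk'
    rw [ev_false, ev_true]
    have e : -(k : ℝ) ^ 2 - a * k - ((l : ℝ) ^ 2 - a * l) =
        -((k : ℝ) ^ 2 - (-a) * k + (l : ℝ) ^ 2 + (-a) * l) := by ring
    rw [e, abs_neg]
    exact h1
  · have h1 := hopp k l a rfl hk'
    rw [ev_true, ev_false]
    have e : (k : ℝ) ^ 2 - a * k - (-(l : ℝ) ^ 2 - a * l) =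
        (k : ℝ) ^ 2 - a * k + (l : ℝ) ^ 2 + a * l := by ring
    rw [e]
    exact h1
  · have hkl : k ≠ l := fun h => hne (by rw [h])
    have h1 := hprod k l a rfl hδle hkl hk'
    rw [ev_true, ev_true]
    have e : (k : ℝ) ^ 2 - a * k - ((l : ℝ) ^ 2 - a * l) = ((k : ℝ) - l) * (k + l - a) := by
      ring
    rw [e]
    exact h1

/-- The set of the exponents of the nonzero modes. -/
def Lam (a : ℝ) : Set ℝ := {x | ∃ j : ℤ × Bool, j.1 ≠ 0 ∧ x = ev a j}

/-- The finite box of modes. -/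
noncomputable def box (M : ℕ) : Finset (ℤ × Bool) := (Finset.Icc (-(M : ℤ)) M) ×ˢ Finset.univ

lemma mem_box {M : ℕ} {j : ℤ × Bool} : j ∈ box M ↔ |j.1| ≤ M := by
  unfold box
  rw [Finset.mem_product, Finset.mem_Icc, abs_le]
  simp

lemma gap_large {a : ℝ} (ha : NonInt a) (γ : ℝ) : ∃ G : Finset ℝ, Gap (Lam a \ G) γ := by
  obtain ⟨N, hN⟩ := gap_aux ha (le_max_right γ 0)
  refine ⟨(box ⌈N⌉₊).image (ev a), ?_⟩
  rintro x ⟨⟨j, hj, rfl⟩, hjG⟩ y ⟨⟨j', hj', rfl⟩, hjG'⟩ hxy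
  have hne : j ≠ j' := fun h => hxy (by rw [h])
  refine (le_max_left γ 0).trans (hN j j' hne ?_)
  by_contra hcon
  push Not at hcon
  apply hjG
  rw [Finset.mem_coe, Finset.mem_image]
  refine ⟨j, ?_, rfl⟩
  rw [mem_box]
  have h1 : |(j.1 : ℝ)| ≤ (⌈N⌉₊ : ℝ) := hcon.trans (Nat.le_ceil N)
  exact_mod_cast h1

/-- A positive lower bound for finitely many positive numbers. -/
lemma exists_pos_lower (s : Finset ℝ) : ∃ d : ℝ, 0 < d ∧ ∀ x ∈ s, 0 < x → d ≤ x := by
  induction s using Finset.induction_on with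
  | empty => exact ⟨1, one_pos, by simp⟩
  | insert a s _ ih =>
    obtain ⟨d, hd, h⟩ := ih
    by_cases ha : 0 < a
    · refine ⟨min d a, lt_min hd ha, fun x hx hx0 => ?_⟩
      rcases Finset.mem_insert.1 hx with rfl | hx
      · exact min_le_right _ _
      · exact (min_le_left _ _).trans (h x hx hx0)
    · refine ⟨d, hd, fun x hx hx0 => ?_⟩
      rcases Finset.mem_insert.1 hx with rfl | hx
      · exact absurd hx0 ha
      · exact h x hx hx0

lemma gap_small {a : ℝ} (ha : NonInt a) : ∃ d : ℝ, 0 < d ∧ Gap (Lam a) d ∧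
    ∀ l ∈ Lam a, d ≤ |l - 0| := by
  obtain ⟨N, hN⟩ := gap_aux ha (zero_le_one)
  set B := box ⌈N⌉₊ with hB
  have hbox : ∀ j : ℤ × Bool, j ∉ B → N < |(j.1 : ℝ)| := by
    intro j hj
    by_contra hcon
    push Not at hcon
    apply hj
    rw [hB, mem_box]
    have h1 : |(j.1 : ℝ)| ≤ (⌈N⌉₊ : ℝ) := hcon.trans (Nat.le_ceil N)
    exact_mod_cast h1
  obtain ⟨d, hd, hdl⟩ := exists_pos_lower
    ((B ×ˢ B).image fun p => |ev a p.1 - ev a p.2|)
  obtain ⟨d', hd', hdl'⟩ := exists_pos_lower (B.image fun p => |ev a p|)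
  refine ⟨min (min d d') 1, lt_min (lt_min hd hd') one_pos, ?_, ?_⟩
  · rintro x ⟨j, hj, rfl⟩ y ⟨j', hj', rfl⟩ hxy
    have hne : j ≠ j' := fun h => hxy (by rw [h])
    by_cases h1 : j ∈ B
    · by_cases h2 : j' ∈ B
      · refine ((min_le_left _ _).trans (min_le_left _ _)).trans (hdl _ ?_ ?_)
        · rw [Finset.mem_image]
          exact ⟨(j, j'), Finset.mem_product.2 ⟨h1, h2⟩, rfl⟩
        · exact abs_pos.2 (sub_ne_zero.2 hxy)
      · refine (min_le_right _ _).trans ?_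
        rw [abs_sub_comm]
        exact hN j' j hne.symm (hbox j' h2)
    · exact (min_le_right _ _).trans (hN j j' hne (hbox j h1))
  · rintro x ⟨j, hj, rfl⟩
    rw [sub_zero]
    by_cases h1 : j ∈ B
    · refine ((min_le_left _ _).trans (min_le_right _ _)).trans (hdl' _ ?_ ?_)
      · rw [Finset.mem_image]
        exact ⟨j, h1, rfl⟩
      · exact abs_pos.2 (ev_ne_zero ha hj)
    · refine (min_le_right _ _).trans ?_
      have h2 := hN j (0, true) (fun h => hj (by rw [h])) (hbox j h1)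
      have h3 : ev a (0, true) = 0 := by rw [ev_true]; simp
      rw [h3, sub_zero] at h2
      exact h2

/-- Observability of the exponents of the beam along one line, for non-integer speed. -/
theorem obsT_Lam {a : ℝ} (ha : NonInt a) {T : ℝ} (hT : 0 < T) : ObsT (Lam a) 0 T := by
  obtain ⟨d, hd, h1, h2⟩ := gap_small ha
  exact obsT_of_gaps hd h1 h2 (gap_large ha) hT

end Pool.Agent.Lib.MP_0955de_an
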