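import Mathlib
import Pool.Agent.Lib.MP_0955de_an.Expo

/-!
The algebraic part: two speeds determine all coefficients.
-/

open Set

namespace Pool.Agent.Lib.MP_0955de_an

/-- Coincidence of exponents of opposite signs: the point `(k, l)` lies on the circle `S_a`. -/
lemma ev_eq_iff (a : ℝ) (k l : ℤ) : ev a (k, true) = ev a (l, false) ↔
    (k : ℝ) ^ 2 - a * k + (l : ℝ) ^ 2 + a * l = 0 := by
  rw [ev_true, ev_false]
  constructor <;> intro h <;> linarith

lemma ev_bool_inj {a : ℝ} (ha : NonInt a) {j j' : ℤ × Bool} (h : ev a j = ev a j')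
    (hs : j.2 = j'.2) : j = j' := by
  obtain ⟨k, s⟩ := j
  obtain ⟨l, s'⟩ := j'
  have hs' : s = s' := hs
  subst hs'
  rw [ev_inj_same ha h]

/-- Points of the circle are bounded. -/
lemma circle_bound {a : ℝ} (ha : a ≠ 0) {k l : ℤ}
    (h : (k : ℝ) ^ 2 - a * k + (l : ℝ) ^ 2 + a * l = 0) : |(k : ℝ)| ≤ 2 * |a| ∧
    |(l : ℝ)| ≤ 2 * |a| := by
  have h1 : a * k ≤ |a| * |(k : ℝ)| := by
    rw [← abs_mul]; exact le_abs_self _
  have h2 : -(a * l) ≤ |a| * |(l : ℝ)| := by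
    rw [← abs_mul]; exact neg_le_abs _
  have h3 : (k : ℝ) ^ 2 = |(k : ℝ)| ^ 2 := (sq_abs _).symm
  have h4 : (l : ℝ) ^ 2 = |(l : ℝ)| ^ 2 := (sq_abs _).symm
  have ha' : 0 < |a| := abs_pos.2 ha
  rw [h3, h4] at h
  constructor
  · by_contra hcon
    push Not at hcon
    nlinarith [sq_nonneg (|(l : ℝ)| - |a| / 2), mul_pos ha' ha']
  · by_contra hcon
    push Not at hcon
    nlinarith [sq_nonneg (|(k : ℝ)| - |a| / 2), mul_pos ha' ha']

/-- **The summation argument.** If two finite sets of nonzero integers are matched by the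
circles of two different parameters, they are empty. -/
lemma match_empty {a1 a2 : ℝ} (h12 : a1 ≠ a2) (P Q : Finset ℤ)
    (hP : ∀ k ∈ P, k ≠ 0)
    (hs1 : ∑ k ∈ P, ((k : ℝ) ^ 2 - a1 * k) = ∑ l ∈ Q, (-(l : ℝ) ^ 2 - a1 * l))
    (hs2 : ∑ k ∈ P, ((k : ℝ) ^ 2 - a2 * k) = ∑ l ∈ Q, (-(l : ℝ) ^ 2 - a2 * l)) :
    P = ∅ := by
  rw [Finset.sum_sub_distrib, Finset.sum_sub_distrib, ← Finset.mul_sum, ← Finset.mul_sum,
    Finset.sum_neg_distrib] at hs1 hs2
  set A := ∑ k ∈ P, (k : ℝ) ^ 2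
  set B := ∑ l ∈ Q, (l : ℝ) ^ 2
  set X := ∑ k ∈ P, (k : ℝ)
  set Y := ∑ l ∈ Q, (l : ℝ)
  have h1 : (a1 - a2) * (X - Y) = 0 := by linarith
  have h2 : X - Y = 0 := by
    rcases mul_eq_zero.1 h1 with h | h
    · exact absurd (sub_eq_zero.1 h) h12
    · exact h
  have h3 : A + B = 0 := by
    have : A + B = a1 * (X - Y) := by linarith
    rw [this, h2, mul_zero]
  have hA : 0 ≤ A := Finset.sum_nonneg fun k _ => sq_nonneg _
  have hB : 0 ≤ B := Finset.sum_nonneg fun k _ => sq_nonneg _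
  have hA0 : A = 0 := by linarith
  by_contra hne
  obtain ⟨k, hk⟩ := Finset.nonempty_iff_ne_empty.2 hne
  have h4 := (Finset.sum_eq_zero_iff_of_nonneg (fun k _ => sq_nonneg ((k : ℤ) : ℝ))).1 hA0 k hk
  have h5 : (k : ℝ) = 0 := by simpa using h4
  exact hP k hk (by exact_mod_cast h5)

/-- Vanishing of the merged coefficients for one speed gives a matching. -/
lemma match_of_vanish {a : ℝ} (ha : NonInt a) (B : Finset (ℤ × Bool)) (v φ : ℤ × Bool → ℂ)
    (hφ : ∀ j, φ j ≠ 0)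
    (hv : ∀ j ∈ B, ∑ j' ∈ B.filter (fun j' => ev a j' = ev a j), φ j' * v j' = 0)
    (s : Bool) (k : ℤ) (hk : (k, s) ∈ B) (hvk : v (k, s) ≠ 0) :
    ∃ l : ℤ, (l, !s) ∈ B ∧ v (l, !s) ≠ 0 ∧ ev a (k, s) = ev a (l, !s) := by
  classical
  by_contra hcon
  push Not at hcon
  have h1 := hv (k, s) hk
  have h2 : ∑ j' ∈ B.filter (fun j' => ev a j' = ev a (k, s)), φ j' * v j' =
      φ (k, s) * v (k, s) := by
    apply Finset.sum_eq_single_of_mem
    · rw [Finset.mem_filter]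
      exact ⟨hk, rfl⟩
    · rintro ⟨l, s'⟩ hj' hne
      rw [Finset.mem_filter] at hj'
      by_cases hs : s' = s
      · exfalso
        apply hne
        exact ev_bool_inj ha hj'.2 hs
      · have hs' : s' = !s := by
          cases s <;> cases s' <;> simp_all
        subst hs'
        by_cases hvl : v (l, !s) = 0
        · rw [hvl, mul_zero]
        · exact absurd hj'.2.symm (hcon l hj'.1 hvl)
  rw [h2] at h1
  exact mul_ne_zero (hφ _) hvk h1

/-- The sums over the matched sets agree. -/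
lemma sum_match {a : ℝ} (ha : NonInt a) (B : Finset (ℤ × Bool)) (v φ : ℤ × Bool → ℂ)
    (hφ : ∀ j, φ j ≠ 0)
    (hv : ∀ j ∈ B, ∑ j' ∈ B.filter (fun j' => ev a j' = ev a j), φ j' * v j' = 0)
    (P Q : Finset ℤ) (hP : ∀ k, k ∈ P ↔ (k, true) ∈ B ∧ v (k, true) ≠ 0)
    (hQ : ∀ k, k ∈ Q ↔ (k, false) ∈ B ∧ v (k, false) ≠ 0) :
    ∑ k ∈ P, ((k : ℝ) ^ 2 - a * k) = ∑ l ∈ Q, (-(l : ℝ) ^ 2 - a * l) := by
  have h1 : ∀ k ∈ P, ∃ l : ℤ, (l, false) ∈ B ∧ v (l, false) ≠ 0 ∧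
      ev a (k, true) = ev a (l, false) := by
    intro k hk
    obtain ⟨h1, h2⟩ := (hP k).1 hk
    exact match_of_vanish ha B v φ hφ hv true k h1 h2
  have h2 : ∀ l ∈ Q, ∃ k : ℤ, (k, true) ∈ B ∧ v (k, true) ≠ 0 ∧
      ev a (l, false) = ev a (k, true) := by
    intro l hl
    obtain ⟨h1, h2⟩ := (hQ l).1 hl
    exact match_of_vanish ha B v φ hφ hv false l h1 h2
  choose! f hf1 hf2 hf3 using h1
  choose! g hg1 hg2 hg3 using h2
  refine Finset.sum_nbij f ?_ ?_ ?_ ?_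
  · intro k hk
    exact (hQ _).2 ⟨hf1 k hk, hf2 k hk⟩
  · intro k hk k' hk' h
    have e1 := hf3 k hk
    have e2 := hf3 k' hk'
    have h' : f k = f k' := h
    rw [h', ← e2] at e1
    exact ev_inj_same ha e1
  · intro l hl
    refine ⟨g l, (hP _).2 ⟨hg1 l hl, hg2 l hl⟩, ?_⟩
    have hmem : g l ∈ P := (hP _).2 ⟨hg1 l hl, hg2 l hl⟩
    have e1 := hf3 (g l) hmem
    have e2 := hg3 l hl
    rw [← e2] at e1
    exact (ev_inj_same ha e1).symm
  · intro k hk
    have e1 := hf3 k hk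
    rw [ev_true, ev_false] at e1
    exact e1

/-- Trivial kernel for two speeds. -/
lemma kernel_trivial {a1 a2 : ℝ} (ha1 : NonInt a1) (ha2 : NonInt a2) (h12 : a1 ≠ a2)
    (B : Finset (ℤ × Bool)) (hB : ∀ j ∈ B, j.1 ≠ 0) (v φ1 φ2 : ℤ × Bool → ℂ)
    (hφ1 : ∀ j, φ1 j ≠ 0) (hφ2 : ∀ j, φ2 j ≠ 0)
    (hv1 : ∀ j ∈ B, ∑ j' ∈ B.filter (fun j' => ev a1 j' = ev a1 j), φ1 j' * v j' = 0)
    (hv2 : ∀ j ∈ B, ∑ j' ∈ B.filter (fun j' => ev a2 j' = ev a2 j), φ2 j' * v j' = 0) :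
    ∀ j ∈ B, v j = 0 := by
  classical
  set P : Finset ℤ := (B.filter fun j => j.2 = true ∧ v j ≠ 0).image Prod.fst with hPdef
  set Q : Finset ℤ := (B.filter fun j => j.2 = false ∧ v j ≠ 0).image Prod.fst with hQdef
  have hP : ∀ k, k ∈ P ↔ (k, true) ∈ B ∧ v (k, true) ≠ 0 := by
    intro k
    rw [hPdef, Finset.mem_image]
    constructor
    · rintro ⟨⟨l, s⟩, hj, rfl⟩
      rw [Finset.mem_filter] at hj
      obtain ⟨h1, h2, h3⟩ := hj
      have h2' : s = true := h2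
      subst h2'
      exact ⟨h1, h3⟩
    · rintro ⟨h1, h2⟩
      exact ⟨(k, true), Finset.mem_filter.2 ⟨h1, rfl, h2⟩, rfl⟩
  have hQ : ∀ k, k ∈ Q ↔ (k, false) ∈ B ∧ v (k, false) ≠ 0 := by
    intro k
    rw [hQdef, Finset.mem_image]
    constructor
    · rintro ⟨⟨l, s⟩, hj, rfl⟩
      rw [Finset.mem_filter] at hj
      obtain ⟨h1, h2, h3⟩ := hj
      have h2' : s = false := h2
      subst h2'
      exact ⟨h1, h3⟩
    · rintro ⟨h1, h2⟩
      exact ⟨(k, false), Finset.mem_filter.2 ⟨h1, rfl, h2⟩, rfl⟩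
  have hs1 := sum_match ha1 B v φ1 hφ1 hv1 P Q hP hQ
  have hs2 := sum_match ha2 B v φ2 hφ2 hv2 P Q hP hQ
  have hPe : P = ∅ := match_empty h12 P Q (fun k hk => hB _ ((hP k).1 hk).1) hs1 hs2
  have hQe : Q = ∅ := by
    by_contra hne
    obtain ⟨l, hl⟩ := Finset.nonempty_iff_ne_empty.2 hne
    obtain ⟨h1, h2⟩ := (hQ l).1 hl
    obtain ⟨k, hk1, hk2, -⟩ := match_of_vanish ha1 B v φ1 hφ1 hv1 false l h1 h2
    have : k ∈ P := (hP k).2 ⟨hk1, hk2⟩
    rw [hPe] at this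
    exact absurd this (Finset.notMem_empty k)
  rintro ⟨k, s⟩ hj
  by_contra hne
  cases s
  · have : k ∈ Q := (hQ k).2 ⟨hj, hne⟩
    rw [hQe] at this
    exact absurd this (Finset.notMem_empty k)
  · have : k ∈ P := (hP k).2 ⟨hj, hne⟩
    rw [hPe] at this
    exact absurd this (Finset.notMem_empty k)

/-- Merged coefficient at the exponent `x`. -/
noncomputable def mg (a : ℝ) (J : Finset (ℤ × Bool)) (φ c : ℤ × Bool → ℂ) (x : ℝ) : ℂ :=
  ∑ j ∈ J.filter (fun j => ev a j = x), φ j * c j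

/-- Finite dimensional bound on a finite set of modes. -/
lemma finite_bound {a1 a2 : ℝ} (ha1 : NonInt a1) (ha2 : NonInt a2) (h12 : a1 ≠ a2)
    (B : Finset (ℤ × Bool)) (hB : ∀ j ∈ B, j.1 ≠ 0) (φ1 φ2 : ℤ × Bool → ℂ)
    (hφ1 : ∀ j, φ1 j ≠ 0) (hφ2 : ∀ j, φ2 j ≠ 0) :
    ∃ K : ℝ, 0 ≤ K ∧ ∀ (c : ℤ × Bool → ℂ) (R : ℝ), 0 ≤ R →
      (∀ j ∈ B, ‖mg a1 B φ1 c (ev a1 j)‖ ≤ R) → (∀ j ∈ B, ‖mg a2 B φ2 c (ev a2 j)‖ ≤ R) →
      ∀ j ∈ B, ‖c j‖ ≤ K * R := by
  classical
  -- the linear map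
  let Φ : (B → ℂ) →ₗ[ℂ] (B → ℂ) × (B → ℂ) :=
    { toFun := fun v => (fun j => ∑ j' : B, if ev a1 j' = ev a1 j then φ1 j' * v j' else 0,
        fun j => ∑ j' : B, if ev a2 j' = ev a2 j then φ2 j' * v j' else 0)
      map_add' := by
        intro x y
        refine Prod.ext ?_ ?_
        · funext j
          show (∑ j' : B, if ev a1 j' = ev a1 j then φ1 j' * (x j' + y j') else 0) =
            (∑ j' : B, if ev a1 j' = ev a1 j then φ1 j' * x j' else 0) +
            ∑ j' : B, if ev a1 j' = ev a1 j then φ1 j' * y j' else 0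
          rw [← Finset.sum_add_distrib]
          apply Finset.sum_congr rfl
          intro j' _
          split_ifs <;> ring
        · funext j
          show (∑ j' : B, if ev a2 j' = ev a2 j then φ2 j' * (x j' + y j') else 0) =
            (∑ j' : B, if ev a2 j' = ev a2 j then φ2 j' * x j' else 0) +
            ∑ j' : B, if ev a2 j' = ev a2 j then φ2 j' * y j' else 0
          rw [← Finset.sum_add_distrib]
          apply Finset.sum_congr rfl
          intro j' _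
          split_ifs <;> ring
      map_smul' := by
        intro r x
        refine Prod.ext ?_ ?_
        · funext j
          show (∑ j' : B, if ev a1 j' = ev a1 j then φ1 j' * (r * x j') else 0) =
            r * (∑ j' : B, if ev a1 j' = ev a1 j then φ1 j' * x j' else 0)
          rw [Finset.mul_sum]
          apply Finset.sum_congr rfl
          intro j' _
          split_ifs <;> ring
        · funext j
          show (∑ j' : B, if ev a2 j' = ev a2 j then φ2 j' * (r * x j') else 0) =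
            r * (∑ j' : B, if ev a2 j' = ev a2 j then φ2 j' * x j' else 0)
          rw [Finset.mul_sum]
          apply Finset.sum_congr rfl
          intro j' _
          split_ifs <;> ring }
  have hconv : ∀ (a : ℝ) (φ c : ℤ × Bool → ℂ) (j : ℤ × Bool),
      (∑ j' : B, if ev a j' = ev a j then φ j' * c j' else 0) = mg a B φ c (ev a j) := by
    intro a φ c j
    unfold mg
    rw [Finset.sum_filter]
    exact Finset.sum_coe_sort B (fun j' => if ev a j' = ev a j then φ j' * c j' else 0)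
  have hker : LinearMap.ker Φ = ⊥ := by
    rw [LinearMap.ker_eq_bot']
    intro v hv
    -- extend v by zero
    let w : ℤ × Bool → ℂ := fun j => if h : j ∈ B then v ⟨j, h⟩ else 0
    have hw : ∀ j : B, w j = v j := by
      intro j
      simp only [w, j.2, dif_pos]
    have hv1 : ∀ j ∈ B, mg a1 B φ1 w (ev a1 j) = 0 := by
      intro j hj
      rw [← hconv]
      have h1 := congrFun (congrArg Prod.fst hv) ⟨j, hj⟩
      have h2 : (∑ j' : B, if ev a1 j' = ev a1 j then φ1 j' * v j' else 0) = 0 := h1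
      refine Eq.trans ?_ h2
      apply Finset.sum_congr rfl
      intro j' _
      rw [hw]
    have hv2 : ∀ j ∈ B, mg a2 B φ2 w (ev a2 j) = 0 := by
      intro j hj
      rw [← hconv]
      have h1 := congrFun (congrArg Prod.snd hv) ⟨j, hj⟩
      have h2 : (∑ j' : B, if ev a2 j' = ev a2 j then φ2 j' * v j' else 0) = 0 := h1
      refine Eq.trans ?_ h2
      apply Finset.sum_congr rfl
      intro j' _
      rw [hw]
    have h3 := kernel_trivial ha1 ha2 h12 B hB w φ1 φ2 hφ1 hφ2 hv1 hv2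
    funext j
    rw [← hw j]
    exact h3 j j.2
  obtain ⟨K, hK0, hK⟩ := LinearMap.exists_antilipschitzWith Φ hker
  refine ⟨K, K.2, ?_⟩
  intro c R hR hc1 hc2 j hj
  let v : B → ℂ := fun j => c j
  have h1 := hK.le_mul_dist v 0
  rw [map_zero, dist_zero_right, dist_zero_right] at h1
  have h2 : ‖Φ v‖ ≤ R := by
    rw [Prod.norm_def, max_le_iff]
    constructor
    · rw [pi_norm_le_iff_of_nonneg hR]
      intro j
      have := hconv a1 φ1 c j
      show ‖∑ j' : B, if ev a1 j' = ev a1 j then φ1 j' * c j' else 0‖ ≤ R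
      rw [this]
      exact hc1 j j.2
    · rw [pi_norm_le_iff_of_nonneg hR]
      intro j
      have := hconv a2 φ2 c j
      show ‖∑ j' : B, if ev a2 j' = ev a2 j then φ2 j' * c j' else 0‖ ≤ R
      rw [this]
      exact hc2 j j.2
  have h3 : ‖v ⟨j, hj⟩‖ ≤ ‖v‖ := norm_le_pi_norm v ⟨j, hj⟩
  calc ‖c j‖ = ‖v ⟨j, hj⟩‖ := rfl
    _ ≤ ‖v‖ := h3
    _ ≤ K * ‖Φ v‖ := h1
    _ ≤ K * R := by
      have : (0 : ℝ) ≤ K := K.2
      gcongr

end Pool.Agent.Lib.MP_0955de_an
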